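import Pool.Agent.TFC.Codeg

/-! Two vertices of a longest cycle at the two ends of an arc between consecutive hubs: their
total degree on the cycle, when no cycle runs exactly through the arc. -/

namespace Pool.Agent.H6T

open List Pool.Agent.TF82 Pool.Agent.TFC

universe u

set_option linter.unusedSectionVars false
set_option linter.unusedVariables false

variable {V : Type u} [DecidableEq V]

/-- `s` and `t` are linked by a path outside `D` with at least `L` vertices -/
def Lk (G : SimpleGraph V) (D : List V) (L : ℕ) (s t : V) : Prop :=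
  ∃ (Q : List V) (x1 x2 : V), Seg G Q x1 x2 ∧ Q.Nodup ∧ (∀ z ∈ Q, z ∉ D) ∧ L ≤ Q.length ∧
    G.Adj s x1 ∧ G.Adj t x2

theorem segT {G : SimpleGraph V} {B : List V} {a b : V} (h : Seg G B a b) {i : ℕ}
    (hi : i < B.length) : Seg G (B.take (i + 1)) a B[i] := by
  refine ⟨h.ch.take _, ?_, ?_⟩
  · rw [List.head?_take]
    simp [h.hd]
  · rw [List.getLast?_take]
    simp [hi]

theorem segD {G : SimpleGraph V} {B : List V} {a b : V} (h : Seg G B a b) {i : ℕ}
    (hi : i < B.length) : Seg G (B.drop i) B[i] b := by
  refine ⟨h.ch.drop _, ?_, ?_⟩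
  · rw [List.head?_drop]
    simp [hi]
  · rw [List.getLast?_drop]
    simp [hi, h.lt]

theorem core {G : SimpleGraph V} {A B Q R : List V} {i j : ℕ} (hij : i < j)
    (hj : j < B.length) (hn : (A ++ B).Nodup) (hQn : Q.Nodup) (hQ : ∀ z ∈ Q, z ∉ A ++ B)
    (hmax : ∀ c', CycL G c' → c'.length ≤ (A ++ B).length) (hA3 : 3 ≤ A.length) {a b : V}
    (hR : Seg G R a b) (hba : G.Adj b a)
    (hp : R.Perm ((A ++ (B.take (i + 1) ++ B.drop j)) ++ Q)) : Q.length + i < j := by
  have hlen : R.length = A.length + ((i + 1) + (B.length - j)) + Q.length := by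
    rw [hp.length_eq]
    simp only [List.length_append, List.length_take, List.length_drop]
    omega
  have hsub : (A ++ (B.take (i + 1) ++ B.drop j)).Sublist (A ++ B) := by
    apply List.Sublist.append_left
    have h1 : B.take (i + 1) ++ B.drop (i + 1) = B := List.take_append_drop _ _
    have h2 : (B.drop j).Sublist (B.drop (i + 1)) := by
      have : B.drop j = (B.drop (i + 1)).drop (j - (i + 1)) := by
        rw [List.drop_drop]
        congr 1
        omega
      rw [this]
      exact List.drop_sublist _ _
    have h3 := List.Sublist.append_left h2 (B.take (i + 1))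
    rwa [h1] at h3
  have hnod : R.Nodup := by
    rw [hp.nodup_iff, List.nodup_append]
    refine ⟨hsub.nodup hn, hQn, ?_⟩
    rintro x hx z hz rfl
    exact hQ x hz (hsub.subset hx)
  have hcyc : CycL G R := by
    refine ⟨hnod, by omega, hR.ch, ?_⟩
    intro x hx z hz
    rw [hR.lt] at hx
    rw [hR.hd] at hz
    simp only [Option.mem_def, Option.some.injEq] at hx hz
    rw [← hx, ← hz]
    exact hba
  have := hmax R hcyc
  rw [List.length_append] at this
  omega

theorem cnt_nat {m L : ℕ} (hL : 1 ≤ L) {N1 N2 H : Finset ℕ} (h1 : ∀ i ∈ N1, i < m)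
    (h2 : ∀ i ∈ N2, i < m) (hH : ∀ i ∈ H, i < m)
    (hc : ∀ i ∈ N1, ∀ j ∈ N2, i ≠ j → i + L < j ∨ j + L < i)
    (hb1 : ∀ h ∈ H, ∀ i ∈ N1, h < i → h + L < i)
    (hb2 : ∀ h ∈ H, ∀ j ∈ N2, j < h → j + L < h)
    (hd : ∀ h ∈ H, ∀ h' ∈ H, h < h' → h + L < h') :
    N1.card + N2.card + H.card * (L - 1) ≤ m + L := by
  set X2 : Finset ℕ := N2.image (fun n => n + L) with hX2
  have hX2c : X2.card = N2.card := Finset.card_image_of_injective _ (fun a b h => by
    simpa using h)
  set Bl : Finset ℕ := (H ×ˢ Finset.range (L - 1)).image (fun q => q.1 + 1 + q.2) with hBl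
  have hBlc : Bl.card = H.card * (L - 1) := by
    rw [hBl, Finset.card_image_of_injOn, Finset.card_product, Finset.card_range]
    rintro ⟨a, x⟩ ha ⟨b, z⟩ hb hab
    rw [Finset.mem_coe, Finset.mem_product, Finset.mem_range] at ha hb
    simp only at ha hb hab
    have hab' : a = b := by
      rcases lt_trichotomy a b with h | h | h
      · have := hd a ha.1 b hb.1 h
        omega
      · exact h
      · have := hd b hb.1 a ha.1 h
        omega
    subst hab'
    have : x = z := by omega
    rw [this]
  have hdis1 : Disjoint N1 X2 := by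
    rw [Finset.disjoint_left]
    intro i hi hi2
    rw [hX2, Finset.mem_image] at hi2
    obtain ⟨n, hn, rfl⟩ := hi2
    rcases hc _ hi n hn (by omega) with h | h <;> omega
  have hdis2 : Disjoint (N1 ∪ X2) Bl := by
    rw [Finset.disjoint_left]
    intro i hi hi2
    rw [hBl, Finset.mem_image] at hi2
    obtain ⟨⟨h, j⟩, hhj, rfl⟩ := hi2
    rw [Finset.mem_product, Finset.mem_range] at hhj
    simp only at hhj hi
    rcases Finset.mem_union.1 hi with hi | hi
    · have := hb1 h hhj.1 _ hi (by omega)
      omega
    · rw [hX2, Finset.mem_image] at hi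
      obtain ⟨n, hn, hnn⟩ := hi
      have := hb2 h hhj.1 n hn (by omega)
      omega
  have hsub : (N1 ∪ X2) ∪ Bl ⊆ Finset.range (m + L) := by
    intro i hi
    rw [Finset.mem_range]
    rcases Finset.mem_union.1 hi with hi | hi
    · rcases Finset.mem_union.1 hi with hi | hi
      · have := h1 i hi
        omega
      · rw [hX2, Finset.mem_image] at hi
        obtain ⟨n, hn, rfl⟩ := hi
        have := h2 n hn
        omega
    · rw [hBl, Finset.mem_image] at hi
      obtain ⟨⟨h, j⟩, hhj, rfl⟩ := hi
      rw [Finset.mem_product, Finset.mem_range] at hhj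
      have := hH h hhj.1
      simp only at *
      omega
  have := Finset.card_le_card hsub
  rw [Finset.card_union_of_disjoint hdis2, Finset.card_union_of_disjoint hdis1, hX2c, hBlc,
    Finset.card_range] at this
  exact this

/-- positions of the neighbours -/
theorem cnt_pos {G : SimpleGraph V} [DecidableRel G.Adj] {p : V} {B : List V} :
    cnt G p B = ((Finset.range B.length).filter
      (fun i => ∃ h : i < B.length, G.Adj p B[i])).card := by
  induction B using List.reverseRecOn with
  | nil => simp [cnt]
  | append_singleton B x ih =>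
    rw [cnt_append, ih]
    have hlen : (B ++ [x]).length = B.length + 1 := by simp
    have e1 : (Finset.range (B ++ [x]).length).filter
        (fun i => ∃ h : i < (B ++ [x]).length, G.Adj p (B ++ [x])[i]) =
        (Finset.range B.length).filter (fun i => ∃ h : i < B.length, G.Adj p B[i]) ∪
          (if G.Adj p x then {B.length} else ∅) := by
      ext i
      simp only [Finset.mem_filter, Finset.mem_range, Finset.mem_union]
      constructor
      · rintro ⟨hi, hi', h⟩
        rcases Nat.lt_or_ge i B.length with h1 | h1
        · left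
          refine ⟨h1, h1, ?_⟩
          rwa [List.getElem_append_left h1] at h
        · right
          have hie : i = B.length := by omega
          subst hie
          have h' : G.Adj p x := by simpa using h
          rw [if_pos h']
          simp
      · rintro (⟨hi, hi', h⟩ | h)
        · refine ⟨by omega, by omega, ?_⟩
          rwa [List.getElem_append_left hi]
        · by_cases hx : G.Adj p x
          · rw [if_pos hx, Finset.mem_singleton] at h
            subst h
            refine ⟨by omega, by omega, ?_⟩
            simpa using hx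
          · rw [if_neg hx] at h
            simp at h
    rw [e1, Finset.card_union_of_disjoint]
    · congr 1
      by_cases hx : G.Adj p x
      · simp [cnt, hx]
      · simp [cnt, hx]
    · rw [Finset.disjoint_left]
      intro i hi hi2
      rw [Finset.mem_filter, Finset.mem_range] at hi
      by_cases hx : G.Adj p x
      · rw [if_pos hx, Finset.mem_singleton] at hi2
        omega
      · rw [if_neg hx] at hi2
        simp at hi2

theorem hub_pos {B : List V} (hn : B.Nodup) {Y : Finset V} (hY : ∀ s ∈ Y, s ∈ B) :
    Y.card = ((Finset.range B.length).filter (fun i => ∃ h : i < B.length, B[i] ∈ Y)).card := by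
  symm
  refine Finset.card_bij (fun i hi => B[i]'(by
    rw [Finset.mem_filter, Finset.mem_range] at hi; exact hi.1)) ?_ ?_ ?_
  · intro i hi
    rw [Finset.mem_filter] at hi
    exact hi.2.2
  · intro i hi j hj h
    exact (List.Nodup.getElem_inj_iff hn).1 h
  · intro s hs
    obtain ⟨i, hi, h⟩ := List.getElem_of_mem (hY s hs)
    refine ⟨i, ?_, h⟩
    rw [Finset.mem_filter, Finset.mem_range]
    exact ⟨hi, hi, by rw [h]; exact hs⟩

theorem two_p {G : SimpleGraph V} [DecidableRel G.Adj] {A B : List V} {p1 p2 y' y : V}
    {Y : Finset V} {L : ℕ} (hL : 1 ≤ L) (hc : CycL G (A ++ B))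
    (hmax : ∀ c', CycL G c' → c'.length ≤ (A ++ B).length) (hA : Seg G A p1 p2)
    (hB : Seg G B y' y) (hA3 : 3 ≤ A.length) (hAno : ∀ c', CycL G c' → ¬ c'.Perm A)
    (hYB : ∀ s ∈ Y, s ∈ B) (hy : y ∈ Y) (hy' : y' ∈ Y)
    (hlk : ∀ s ∈ Y, ∀ t ∈ Y, s ≠ t → Lk G (A ++ B) L s t) :
    cnt G p1 (A ++ B) + cnt G p2 (A ++ B) + Y.card * L + 1 ≤ (A ++ B).length + Y.card + L := by
  have hnAB := hc.1
  have hnA : A.Nodup := (List.nodup_append.1 hnAB).1
  have hnB : B.Nodup := (List.nodup_append.1 hnAB).2.1
  -- the two edges between the arcs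
  have e2 : G.Adj p2 y' := by
    have := hc.2.2.1
    rw [List.isChain_append] at this
    exact this.2.2 p2 (by rw [hA.lt]; rfl) y' (by rw [hB.hd]; rfl)
  have e1 : G.Adj y p1 := by
    refine hc.2.2.2 y ?_ p1 ?_
    · rw [List.getLast?_append, hB.lt]
      rfl
    · rw [List.head?_append, hA.hd]
      rfl
  -- the arc `A`
  have hAc : cnt G p1 A + cnt G p2 A + 1 ≤ A.length := by
    refine path_count hnA hA.hd hA.lt ?_
    intro w hw h1 h2
    obtain ⟨c', hc', hp⟩ := close_path hnA hA3 hA.ch hA.hd hA.lt hw h1 h2
    exact hAno c' hc' hp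
  rw [cnt_append, cnt_append, List.length_append]
  suffices hBc : cnt G p1 B + cnt G p2 B + Y.card * L ≤ B.length + Y.card + L by omega
  by_cases hyy : y' = y
  · -- one hub
    subst hyy
    have hBp := hB.pos
    have hBl : B.length = 1 := by
      have h0 := hB.hd
      have h1 := hB.lt
      rw [List.head?_eq_getElem?, List.getElem?_eq_getElem (by omega)] at h0
      rw [List.getLast?_eq_getElem?, List.getElem?_eq_getElem (by omega)] at h1
      have h2 : B[0] = B[B.length - 1] := by
        rw [Option.some.injEq] at h0 h1
        rw [h0, h1]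
      have := (List.Nodup.getElem_inj_iff hnB).1 h2
      omega
    have hYc : Y.card ≤ 1 := by
      have h1 : Y ⊆ B.toFinset := fun s hs => List.mem_toFinset.2 (hYB s hs)
      have h2 := Finset.card_le_card h1
      rw [List.toFinset_card_of_nodup hnB] at h2
      omega
    have hY1 : 0 < Y.card := Finset.card_pos.2 ⟨_, hy⟩
    have hYe : Y.card = 1 := by omega
    have c1 : cnt G p1 B ≤ B.length := List.length_filter_le _ _
    have c2 : cnt G p2 B ≤ B.length := List.length_filter_le _ _
    rw [hYe]
    omega
  have hyy' : y ≠ y' := fun h => hyy h.symm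
  set N1 := (Finset.range B.length).filter (fun i => ∃ h : i < B.length, G.Adj p1 B[i]) with hN1
  set N2 := (Finset.range B.length).filter (fun i => ∃ h : i < B.length, G.Adj p2 B[i]) with hN2
  set H := (Finset.range B.length).filter (fun i => ∃ h : i < B.length, B[i] ∈ Y) with hH
  have hcount := cnt_nat (m := B.length) hL (N1 := N1) (N2 := N2) (H := H)
    (fun i hi => by rw [hN1, Finset.mem_filter] at hi; exact hi.2.1)
    (fun i hi => by rw [hN2, Finset.mem_filter] at hi; exact hi.2.1)
    (fun i hi => by rw [hH, Finset.mem_filter] at hi; exact hi.2.1) ?_ ?_ ?_ ?_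
  · rw [cnt_pos (B := B), cnt_pos (B := B), hub_pos hnB hYB]
    have hpos : 0 < H.card := by
      rw [hH, ← hub_pos hnB hYB]
      exact Finset.card_pos.2 ⟨_, hy⟩
    have e : H.card * L = H.card * (L - 1) + H.card := by
      obtain ⟨l, rfl⟩ := Nat.exists_eq_add_of_le hL
      rw [Nat.add_sub_cancel_left]
      ring
    rw [← hH, ← hN1, ← hN2, e]
    omega
  · -- gaps between neighbours of `p1` and `p2`
    intro i hi j hj hij
    rw [hN1, Finset.mem_filter] at hi
    rw [hN2, Finset.mem_filter] at hj
    obtain ⟨-, hi1, hi2⟩ := hi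
    obtain ⟨-, hj1, hj2⟩ := hj
    obtain ⟨Q, x1, x2, hQ, hQn, hQd, hQL, hs, ht⟩ := hlk y hy y' hy' hyy'
    rcases Nat.lt_or_gt_of_ne hij with hlt | hlt
    · left
      have hR := (((segT hB hi1).append hA hi2.symm).append (segD hB hj1) hj2).append hQ hs
      have := core hlt hj1 hnAB hQn hQd hmax hA3 hR ht.symm (by
        apply List.Perm.append_right
        rw [← List.append_assoc]
        exact List.perm_append_comm.append_right _)
      omega
    · right
      have hR := (((segT hB hj1).append hA.rev hj2.symm).append (segD hB hi1) hi2).append hQ hs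
      have := core hlt hi1 hnAB hQn hQd hmax hA3 hR ht.symm (by
        apply List.Perm.append_right
        rw [← List.append_assoc]
        refine List.Perm.append_right _ ?_
        exact List.perm_append_comm.trans ((List.reverse_perm A).append_right _))
      omega
  · -- after a hub there is no neighbour of `p1`
    intro h hh i hi hhi
    rw [hH, Finset.mem_filter] at hh
    rw [hN1, Finset.mem_filter] at hi
    obtain ⟨-, hi1, hi2⟩ := hi
    obtain ⟨-, hh1, hh2⟩ := hh
    have hlast : B[B.length - 1]'(by omega) = y := by
      have := hB.lt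
      rw [List.getLast?_eq_getElem?, List.getElem?_eq_getElem (by omega)] at this
      simpa using this
    have hne : B[h] ≠ y := by
      intro he
      have := (List.Nodup.getElem_inj_iff hnB).1 (he.trans hlast.symm)
      omega
    obtain ⟨Q, x1, x2, hQ, hQn, hQd, hQL, hs, ht⟩ := hlk _ hh2 y hy hne
    have hR := ((hA.append (segT hB hh1) e2).append hQ hs).append (segD hB hi1).rev ht.symm
    have := core hhi hi1 hnAB hQn hQd hmax hA3 hR hi2.symm (by
      have p1 : ((A ++ B.take (h + 1)) ++ Q ++ (B.drop i).reverse).Perm
          ((A ++ B.take (h + 1)) ++ (B.drop i ++ Q)) := by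
        rw [List.append_assoc]
        apply List.Perm.append_left
        exact List.perm_append_comm.trans ((List.reverse_perm _).append_right _)
      refine p1.trans ?_
      simp)
    omega
  · -- before a hub there is no neighbour of `p2`
    intro h hh j hj hhj
    rw [hH, Finset.mem_filter] at hh
    rw [hN2, Finset.mem_filter] at hj
    obtain ⟨-, hj1, hj2⟩ := hj
    obtain ⟨-, hh1, hh2⟩ := hh
    have hfst : B[0]'(by omega) = y' := by
      have := hB.hd
      rw [List.head?_eq_getElem?, List.getElem?_eq_getElem (by omega)] at this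
      simpa using this
    have hne : y' ≠ B[h] := by
      intro he
      have := (List.Nodup.getElem_inj_iff hnB).1 (hfst.trans he)
      omega
    obtain ⟨Q, x1, x2, hQ, hQn, hQd, hQL, hs, ht⟩ := hlk y' hy' _ hh2 hne
    have hR := (((segT hB hj1).rev.append hQ hs).append (segD hB hh1) ht.symm).append hA e1
    have := core hhj hh1 hnAB hQn hQd hmax hA3 hR hj2 (by
      have q1 : ((B.take (j + 1)).reverse ++ Q ++ B.drop h ++ A).Perm
          (A ++ (B.take (j + 1) ++ Q ++ B.drop h)) := by
        refine List.perm_append_comm.trans ?_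
        apply List.Perm.append_left
        exact ((List.reverse_perm _).append_right _).append_right _
      refine q1.trans ?_
      rw [List.append_assoc A]
      apply List.Perm.append_left
      rw [List.append_assoc, List.append_assoc]
      apply List.Perm.append_left
      exact List.perm_append_comm)
    omega
  · -- two hubs
    intro h hh h' hh' hhh
    rw [hH, Finset.mem_filter] at hh hh'
    obtain ⟨-, hh1, hh2⟩ := hh
    obtain ⟨-, hh1', hh2'⟩ := hh'
    have hne : B[h] ≠ B[h'] := by
      intro he
      have := (List.Nodup.getElem_inj_iff hnB).1 he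
      omega
    obtain ⟨Q, x1, x2, hQ, hQn, hQd, hQL, hs, ht⟩ := hlk _ hh2 _ hh2' hne
    have hR := ((hA.append (segT hB hh1) e2).append hQ hs).append (segD hB hh1') ht.symm
    have := core hhh hh1' hnAB hQn hQd hmax hA3 hR e1 (by
      rw [List.append_assoc (A ++ B.take (h + 1)), List.append_assoc A]
      rw [List.append_assoc A]
      apply List.Perm.append_left
      rw [List.append_assoc]
      apply List.Perm.append_left
      exact List.perm_append_comm)
    omega

end Pool.Agent.H6T
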