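import Pool.Agent.H62P.Steps
import Pool.Agent.H72N.RichC
import Pool.Agent.TFG.Win
import Pool.Agent.TFA.Idx

/-! Conflict lemma with labels: the surplus at the vertices which are no cut vertices.  Part 1. -/

set_option autoImplicit false

namespace Pool.Agent.H6T.Lab

open List Pool.Agent.TF82 Pool.Agent.TFC Pool.Agent.TFB Pool.Agent.TFN Pool.Agent.TFG
  Pool.Agent.EG31 Pool.Agent.H18C Pool.Agent.H62P

universe u

set_option linter.unusedSectionVars false
set_option linter.unusedVariables false

variable {V : Type u} [DecidableEq V]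

open Classical in
/-- unclean vertices of `Z` which are no cut vertices of `Z` -/
noncomputable def XX (G : SimpleGraph V) (W : Finset V) (F : List (List V)) (Z : Finset V) :
    Finset V :=
  Z.filter (fun x => x ∉ W ∧ Conn1 G (Z.erase x) ∧
    ∃ u ∈ F.flatten, G.Adj u x ∧ ∀ x' ∈ Z, G.Adj u x' → x' = x)

theorem mem_XX {G : SimpleGraph V} {W : Finset V} {F : List (List V)} {Z : Finset V} {x : V} :
    x ∈ XX G W F Z ↔ x ∈ Z ∧ x ∉ W ∧ Conn1 G (Z.erase x) ∧
      ∃ u ∈ F.flatten, G.Adj u x ∧ ∀ x' ∈ Z, G.Adj u x' → x' = x := by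
  classical
  unfold XX
  exact Finset.mem_filter

/-- optional vertices together with the unclean ones -/
noncomputable def Sp (G : SimpleGraph V) (W : Finset V) (F : List (List V)) (Z : Finset V) :
    Finset V := (W ∩ Z) ∪ XX G W F Z

/-- `u` is adjacent to two vertices of `Z` in different clusters -/
def Rich (G : SimpleGraph V) (W : Finset V) (F : List (List V)) (Z : Finset V) (u : V) : Prop :=
  ∃ x ∈ Z, ∃ x' ∈ Z, G.Adj u x ∧ G.Adj u x' ∧ ¬ Near G Z (Sp G W F Z) x x'

/-- optional or rich for the component of an element of `J` -/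
def Blk [Fintype V] (G : SimpleGraph V) (W : Finset V) (F : List (List V)) (J : Finset V)
    (u : V) : Prop := u ∈ W ∨ ∃ x ∈ J, Rich G W F (comp G F x) u

open Classical in
/-- a hub with the only neighbour `x` in `Z` -/
noncomputable def pend (G : SimpleGraph V) (F : List (List V)) (Z : Finset V) (x : V) : V :=
  if h : ∃ u ∈ F.flatten, G.Adj u x ∧ ∀ x' ∈ Z, G.Adj u x' → x' = x then h.choose else x

theorem pend_spec {G : SimpleGraph V} {W : Finset V} {F : List (List V)} {Z : Finset V} {x : V}
    (hx : x ∈ XX G W F Z) : pend G F Z x ∈ F.flatten ∧ G.Adj (pend G F Z x) x ∧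
      ∀ x' ∈ Z, G.Adj (pend G F Z x) x' → x' = x := by
  have h := (mem_XX.1 hx).2.2.2
  unfold pend
  rw [dif_pos h]
  exact h.choose_spec

theorem Sp_sub {G : SimpleGraph V} {W : Finset V} {F : List (List V)} {Z : Finset V} :
    Sp G W F Z ⊆ Z := by
  intro x hx
  rcases Finset.mem_union.1 hx with h | h
  · exact (Finset.mem_inter.1 h).2
  · exact (mem_XX.1 h).1

theorem XX_W {G : SimpleGraph V} {W : Finset V} {F : List (List V)} {Z : Finset V} :
    Disjoint (W ∩ Z) (XX G W F Z) := by
  rw [Finset.disjoint_left]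
  intro x hx hx'
  exact (mem_XX.1 hx').2.1 (Finset.mem_inter.1 hx).1

theorem comp_conn1 [Fintype V] {G : SimpleGraph V} {F : List (List V)} {y : V} (hy : y ∈ unc F) :
    Conn1 G (comp G F y) := by
  have key : ∀ c, Reach G (unc F) y c → Reach G (comp G F y) y c := by
    intro c hc
    induction hc with
    | refl => exact Relation.ReflTransGen.refl
    | @tail b c hab hbc ih =>
      exact Relation.ReflTransGen.tail ih ⟨mem_comp.2 ⟨hbc.1, hab⟩,
        mem_comp.2 ⟨hbc.2.1, Relation.ReflTransGen.tail hab hbc⟩, hbc.2.2⟩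
  intro c hc d hd
  exact Relation.ReflTransGen.trans (Reach.symm (key c (mem_comp.1 hc).2)) (key d (mem_comp.1 hd).2)

theorem comp_eq [Fintype V] {G : SimpleGraph V} {F : List (List V)} {y x : V}
    (h : x ∈ comp G F y) : comp G F x = comp G F y := by
  ext z
  rw [mem_comp, mem_comp]
  have h1 := (mem_comp.1 h).2
  exact ⟨fun hz => ⟨hz.1, Relation.ReflTransGen.trans h1 hz.2⟩,
    fun hz => ⟨hz.1, Relation.ReflTransGen.trans h1.symm hz.2⟩⟩

theorem self_comp [Fintype V] {G : SimpleGraph V} {F : List (List V)} {y : V} (hy : y ∈ unc F) :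
    y ∈ comp G F y := mem_comp.2 ⟨hy, Relation.ReflTransGen.refl⟩

/-- a vertex that would satisfy the degree condition if it were mandatory is near to no other
vertex -/
theorem own_cluster {G : SimpleGraph V} [DecidableRel G.Adj] : ∀ (n : ℕ) (H S : Finset V) (x : V),
    H.card ≤ n → Conn1 G H → S ⊆ H → x ∈ H → Conn1 G (H.erase x) →
    (∀ I ⊆ H \ (S.erase x), G.IsIndepSet (I : Set V) → x ∈ I →
      I.card + (S.erase x).card + 1 ≤ dU G H x) →
    ∀ x' ∈ H, x' ≠ x → ¬ Near G H S x x' := by
  intro n
  induction n with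
  | zero =>
    intro H S x hn hH hS hx
    have : H = ∅ := Finset.card_eq_zero.1 (Nat.le_zero.1 hn)
    rw [this] at hx
    simp at hx
  | succ n ih =>
    intro H S x hn hH hS hx hnc hC x' hx' hne
    by_cases h2 : Conn2 G H
    · have h1 := hC {x} (by
        intro y hy
        rw [Finset.mem_singleton] at hy
        rw [hy]
        exact Finset.mem_sdiff.2 ⟨hx, fun h => (Finset.mem_erase.1 h).1 rfl⟩) (by simp)
        (Finset.mem_singleton_self x)
      rw [Finset.card_singleton] at h1
      have h3 : ∃ v ∈ H.filter (fun w => G.Adj x w), v ∉ S.erase x := by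
        by_contra hcon
        push Not at hcon
        have := Finset.card_le_card (show H.filter (fun w => G.Adj x w) ⊆ S.erase x from hcon)
        unfold dU at h1
        omega
      obtain ⟨v, hv, hvS⟩ := h3
      rw [Finset.mem_filter] at hv
      have hvx : v ≠ x := fun h => G.loopless.irrefl x (by rw [h] at hv; exact hv.2)
      exact near_two h2 hv.1 (fun h => hvS (Finset.mem_erase.2 ⟨hvx, h⟩)) hx hx' hne.symm
    unfold Conn2 at h2
    push Not at h2
    obtain ⟨z, hz, hzc⟩ := h2
    have hxz : x ≠ z := fun he => hzc (he ▸ hnc)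
    obtain ⟨C, hxC, hP⟩ := exists_part (G := G) hz (Finset.mem_erase.2 ⟨hxz, hx⟩)
    have hout : ∃ u₀ ∈ H, u₀ ∉ insert z C := by
      by_contra hcon
      push Not at hcon
      apply hzc
      intro a ha b hb
      have h1 : H.erase z = C := by
        apply Finset.Subset.antisymm _ hP.sub
        intro y hy
        rw [Finset.mem_erase] at hy
        rcases Finset.mem_insert.1 (hcon y hy.2) with h3 | h3
        · exact absurd h3 hy.1
        · exact h3
      rw [h1] at ha hb ⊢
      exact hP.conn a ha b hb
    obtain ⟨u₀, hu, hu'⟩ := hout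
    have hcard : (insert z C).card ≤ n := by
      have : (insert z C).card < H.card := Finset.card_lt_card ⟨hP.insH, fun hcon => hu' (hcon hu)⟩
      omega
    have hS' : insert z (S ∩ C) ⊆ insert z C := by
      intro y hy
      rcases Finset.mem_insert.1 hy with rfl | hy
      · exact Finset.mem_insert_self _ _
      · exact Finset.mem_insert_of_mem (Finset.mem_inter.1 hy).2
    have huC : u₀ ∉ C := fun he => hu' (Finset.mem_insert_of_mem he)
    have hux : u₀ ≠ x := fun he => huC (he ▸ hxC)
    have hnc' : Conn1 G ((insert z C).erase x) := by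
      intro a ha b hb
      rw [Finset.mem_erase] at ha hb
      exact hP.reach_in (hnc a (Finset.mem_erase.2 ⟨ha.1, hP.insH ha.2⟩) b
        (Finset.mem_erase.2 ⟨hb.1, hP.insH hb.2⟩)) ha.2 hb.2 ha.1
    have hcs : ((insert z (S ∩ C)).erase x).card ≤ ((S ∩ C).erase x).card + 1 := by
      have : (insert z (S ∩ C)).erase x ⊆ insert z ((S ∩ C).erase x) := by
        intro y hy
        rw [Finset.mem_erase, Finset.mem_insert] at hy
        rcases hy.2 with h | h
        · exact Finset.mem_insert.2 (Or.inl h)
        · exact Finset.mem_insert_of_mem (Finset.mem_erase.2 ⟨hy.1, h⟩)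
      exact (Finset.card_le_card this).trans (Finset.card_insert_le _ _)
    have hC' : ∀ I ⊆ insert z C \ ((insert z (S ∩ C)).erase x), G.IsIndepSet (I : Set V) → x ∈ I →
        I.card + ((insert z (S ∩ C)).erase x).card + 1 ≤ dU G (insert z C) x := by
      intro I hI hind hxI
      have hIC : ∀ y ∈ I, y ∈ C ∧ y ∉ S.erase x := by
        intro y hy
        have := hI hy
        rw [Finset.mem_sdiff] at this
        have hyz : y ≠ z := fun he => this.2 (Finset.mem_erase.2 ⟨he ▸ hxz.symm,
          he ▸ Finset.mem_insert_self _ _⟩)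
        have hyC : y ∈ C := by
          rcases Finset.mem_insert.1 this.1 with h1 | h1
          · exact absurd h1 hyz
          · exact h1
        refine ⟨hyC, fun hyS => this.2 ?_⟩
        rw [Finset.mem_erase] at hyS
        exact Finset.mem_erase.2 ⟨hyS.1, Finset.mem_insert_of_mem
          (Finset.mem_inter.2 ⟨hyS.2, hyC⟩)⟩
      rw [hP.dU_eq hxC]
      by_cases huS : u₀ ∈ S
      · have h1 := hC I (fun y hy => Finset.mem_sdiff.2 ⟨hP.subH (hIC y hy).1, (hIC y hy).2⟩)
          hind hxI
        have h3 : ((S ∩ C).erase x).card < (S.erase x).card := by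
          apply Finset.card_lt_card
          refine ⟨Finset.erase_subset_erase _ Finset.inter_subset_left, fun hcon => ?_⟩
          exact huC (Finset.mem_inter.1 (Finset.mem_of_mem_erase
            (hcon (Finset.mem_erase.2 ⟨hux, huS⟩)))).2
        omega
      · have huI : u₀ ∉ I := fun he => huC (hIC _ he).1
        have hnadj : ∀ y ∈ I, ¬ G.Adj y u₀ := by
          intro y hy hadj
          rcases hP.cl y (hIC y hy).1 u₀ hu hadj with h3 | h3
          · exact huC h3
          · exact hu' (h3 ▸ Finset.mem_insert_self _ _)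
        have h1 := hC (insert u₀ I) (by
          intro y hy
          rcases Finset.mem_insert.1 hy with rfl | hy
          · exact Finset.mem_sdiff.2 ⟨hu, fun h => huS (Finset.mem_of_mem_erase h)⟩
          · exact Finset.mem_sdiff.2 ⟨hP.subH (hIC y hy).1, (hIC y hy).2⟩) (by
          rw [Finset.coe_insert]
          intro a ha c hc hac hadj
          rcases ha with rfl | ha
          · rcases hc with rfl | hc
            · exact hac rfl
            · exact hnadj c hc hadj.symm
          · rcases hc with rfl | hc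
            · exact hnadj a ha hadj
            · exact hind ha hc hac hadj) (Finset.mem_insert_of_mem hxI)
        rw [Finset.card_insert_of_notMem huI] at h1
        have h3 : ((S ∩ C).erase x).card ≤ (S.erase x).card :=
          Finset.card_le_card (Finset.erase_subset_erase _ Finset.inter_subset_left)
        omega
    have hrec := ih (insert z C) (insert z (S ∩ C)) x hcard (hP.conn_ins hH) hS'
      (Finset.mem_insert_of_mem hxC) hnc' hC'
    intro hnear
    by_cases hx'I : x' ∈ insert z C
    · exact hrec x' hx'I hne (near_in hP hH (Finset.mem_insert_of_mem hxC) hx'I hnear)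
    · exact hrec z (Finset.mem_insert_self _ _) hxz.symm (near_part hP hH hxC hx'
        (fun h => hx'I (Finset.mem_insert_of_mem h)) hnear)

/-- (AM) with optional vertices and surplus -/
theorem att_main_b [Fintype V] {G : SimpleGraph V} [DecidableRel G.Adj] {W : Finset V} {b : ℕ}
    (hC : CWb G Finset.univ W b) {j : ℕ} {L : List (List V)} (hM : IsMax G j L) {y : V}
    (hy : y ∈ unc L) (J : Finset V) (hJW : Disjoint J W)
    (hJ : G.IsIndepSet (J : Set V)) (hJr : ∀ x ∈ J, Reach G (unc L) y x) {v : V} (hv : v ∈ J) :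
    J.card + 1 + b + (W ∩ unc L).card + ((att G L y).filter (fun w => ¬ G.Adj v w)).card ≤
      dU G (unc L) v := by
  have hcov : ∀ w ∈ att G L y, w ∈ L.flatten := fun w hw => (mem_att.1 hw).1
  have hcr : ∀ w ∈ att G L y, ∀ x ∈ J, ¬ G.Adj (prv L w) x := by
    intro w hw x hx hadj
    exact att_noins hM hy hw (mem_att.2 ⟨prv_mem hM.fam (hcov w hw), x, hJr x hx, hadj⟩)
  set P : Finset V := (att G L y).image (prv L) with hP
  have hPL : ∀ p ∈ P, p ∈ L.flatten := by
    intro p hp
    obtain ⟨w, hw, rfl⟩ := Finset.mem_image.1 hp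
    exact prv_mem hM.fam (hcov w hw)
  have hdis : Disjoint J (P \ W) := by
    rw [Finset.disjoint_left]
    intro x hx hx'
    exact mem_unc.1 (reach_unc hy (hJr _ hx)) (hPL x (Finset.mem_sdiff.1 hx').1)
  have hcP : P.card = (att G L y).card := by
    refine Finset.card_image_of_injOn ?_
    intro a ha b hb hab
    exact prv_inj hM.fam (hcov a ha) (hcov b hb) hab
  have key := hC (J ∪ (P \ W)) (by
      intro x hx
      rw [Finset.mem_sdiff]
      refine ⟨Finset.mem_univ _, ?_⟩
      rcases Finset.mem_union.1 hx with h | h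
      · exact Finset.disjoint_left.1 hJW h
      · exact (Finset.mem_sdiff.1 h).2) (by
      intro a ha b hb hab
      rw [Finset.mem_coe, Finset.mem_union] at ha hb
      rcases ha with ha | ha <;> rcases hb with hb | hb
      · exact hJ ha hb hab
      · obtain ⟨w, hw, rfl⟩ := Finset.mem_image.1 (Finset.mem_sdiff.1 hb).1
        intro h; exact hcr w hw a ha h.symm
      · obtain ⟨w, hw, rfl⟩ := Finset.mem_image.1 (Finset.mem_sdiff.1 ha).1
        exact hcr w hw b hb
      · obtain ⟨w, hw, rfl⟩ := Finset.mem_image.1 (Finset.mem_sdiff.1 ha).1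
        obtain ⟨w', hw', rfl⟩ := Finset.mem_image.1 (Finset.mem_sdiff.1 hb).1
        exact att_indep hM hy hw hw') v (Finset.mem_union_left _ hv)
  rw [Finset.card_union_of_disjoint hdis] at key
  have h1 : P.card ≤ (P \ W).card + (W ∩ P).card := by
    have : P ⊆ (P \ W) ∪ (W ∩ P) := by
      intro p hp
      by_cases h : p ∈ W
      · exact Finset.mem_union_right _ (Finset.mem_inter.2 ⟨h, hp⟩)
      · exact Finset.mem_union_left _ (Finset.mem_sdiff.2 ⟨hp, h⟩)
    exact (Finset.card_le_card this).trans (Finset.card_union_le _ _)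
  have h2 : (W ∩ P).card + (W ∩ unc L).card ≤ W.card := by
    rw [← Finset.card_union_of_disjoint]
    · exact Finset.card_le_card (Finset.union_subset Finset.inter_subset_left
        Finset.inter_subset_left)
    · rw [Finset.disjoint_left]
      intro x hx hx'
      exact mem_unc.1 (Finset.mem_inter.1 hx').2 (hPL x (Finset.mem_inter.1 hx).2)
  have h3 := att_deg (G := G) hy (hJr v hv)
  have h4 := Finset.card_filter_add_card_filter_not (s := att G L y) (fun w => G.Adj v w)
  omega

/-- (AM) with pendant hubs -/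
theorem amx [Fintype V] {G : SimpleGraph V} [DecidableRel G.Adj] {W : Finset V} {b : ℕ}
    (hC : CWb G Finset.univ W b) {F : List (List V)} (hM : IsMax G F.length F) {y : V}
    (hy : y ∈ unc F) {I X0 : Finset V} (hI : I ⊆ comp G F y) (hIW : Disjoint I W)
    (hind : G.IsIndepSet (I : Set V)) {v : V} (hv : v ∈ I)
    (hX0 : X0 ⊆ XX G W F (comp G F y)) (hvX : v ∉ X0) :
    I.card + 1 + b + (W ∩ comp G F y).card + X0.card ≤ dU G (comp G F y) v := by
  have h1 := att_main_b hC hM hy I hIW hind (fun x hx => (mem_comp.1 (hI hx)).2) hv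
  rw [dU_comp (hI hv)]
  have h2 : (W ∩ comp G F y).card ≤ (W ∩ unc F).card := by
    refine Finset.card_le_card ?_
    intro x hx
    have := Finset.mem_inter.1 hx
    exact Finset.mem_inter.2 ⟨this.1, (mem_comp.1 this.2).1⟩
  have h3 : X0.card ≤ ((att G F y).filter (fun w => ¬ G.Adj v w)).card := by
    refine Finset.card_le_card_of_injOn (pend G F (comp G F y)) ?_ ?_
    · intro x hx
      have hx' := hX0 (Finset.mem_coe.1 hx)
      have hp := pend_spec hx'
      rw [Finset.mem_coe, Finset.mem_filter]
      refine ⟨mem_att.2 ⟨hp.1, x, (mem_comp.1 (mem_XX.1 hx').1).2, hp.2.1⟩, ?_⟩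
      intro hadj
      exact hvX ((hp.2.2 v (hI hv) hadj.symm) ▸ Finset.mem_coe.1 hx)
    · intro x hx x' hx' hxx
      have hp := pend_spec (hX0 (Finset.mem_coe.1 hx))
      have hp' := pend_spec (hX0 (Finset.mem_coe.1 hx'))
      rw [hxx] at hp
      exact hp'.2.2 x (mem_XX.1 (hX0 (Finset.mem_coe.1 hx))).1 hp.2.1
  omega

/-- surplus `b` at all vertices -/
theorem K0 [Fintype V] {G : SimpleGraph V} [DecidableRel G.Adj] {W : Finset V} {b : ℕ}
    (hC : CWb G Finset.univ W b) {F : List (List V)} (hM : IsMax G F.length F) {y : V}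
    (hy : y ∈ unc F) : CWb G (comp G F y) (Sp G W F (comp G F y)) b := by
  intro I hI hind v hv
  have hIc : ∀ x ∈ I, x ∈ comp G F y ∧ x ∉ W ∧ x ∉ XX G W F (comp G F y) := by
    intro x hx
    have h1 := Finset.mem_sdiff.1 (hI hx)
    unfold Sp at h1
    rw [Finset.mem_union, Finset.mem_inter] at h1
    push Not at h1
    exact ⟨h1.1, fun h => h1.2.1 h h1.1, h1.2.2⟩
  have h1 := amx hC hM hy (I := I) (X0 := XX G W F (comp G F y)) (fun x hx => (hIc x hx).1)
    (Finset.disjoint_left.2 (fun x hx => (hIc x hx).2.1)) hind hv (Finset.Subset.refl _)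
    (hIc v hv).2.2
  have h2 : (Sp G W F (comp G F y)).card = (W ∩ comp G F y).card + (XX G W F (comp G F y)).card :=
    Finset.card_union_of_disjoint XX_W
  omega

/-- unclean vertices which are no cut vertices are clusters -/
theorem unclean_cluster [Fintype V] {G : SimpleGraph V} [DecidableRel G.Adj] {W : Finset V}
    {b : ℕ} (hC : CWb G Finset.univ W b) {F : List (List V)} (hM : IsMax G F.length F) {y : V}
    (hy : y ∈ unc F) {x : V} (hx : x ∈ XX G W F (comp G F y)) :
    ∀ x' ∈ comp G F y, x' ≠ x → ¬ Near G (comp G F y) (Sp G W F (comp G F y)) x x' := by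
  have hx' := mem_XX.1 hx
  refine own_cluster _ _ _ x le_rfl (comp_conn1 hy) Sp_sub hx'.1 hx'.2.2.1 ?_
  intro I hI hind hxI
  have hIc : ∀ z ∈ I, z ∈ comp G F y ∧ z ∉ W := by
    intro z hz
    have h1 := Finset.mem_sdiff.1 (hI hz)
    refine ⟨h1.1, fun hW => h1.2 (Finset.mem_erase.2 ⟨?_, Finset.mem_union_left _
      (Finset.mem_inter.2 ⟨hW, h1.1⟩)⟩)⟩
    rintro rfl
    exact hx'.2.1 hW
  have h1 := amx hC hM hy (I := I) (X0 := (XX G W F (comp G F y)).erase x)
    (fun z hz => (hIc z hz).1)
    (Finset.disjoint_left.2 (fun z hz => (hIc z hz).2)) hind hxI (Finset.erase_subset _ _)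
    (fun h => (Finset.mem_erase.1 h).1 rfl)
  have h2 : ((Sp G W F (comp G F y)).erase x).card ≤
      (W ∩ comp G F y).card + ((XX G W F (comp G F y)).erase x).card := by
    refine (Finset.card_le_card ?_).trans (Finset.card_union_le _ _)
    intro z hz
    rw [Finset.mem_erase] at hz
    rcases Finset.mem_union.1 hz.2 with h | h
    · exact Finset.mem_union_left _ h
    · exact Finset.mem_union_right _ (Finset.mem_erase.2 ⟨hz.1, h⟩)
  omega

end Pool.Agent.H6T.Lab
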