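import Pool.Agent.H6T.Lab3

/-! Conflict lemma with labels.  Part 4: the theorem. -/

set_option autoImplicit false

namespace Pool.Agent.H6T.Lab

open List Pool.Agent.TF82 Pool.Agent.TFC Pool.Agent.TFB Pool.Agent.TFN Pool.Agent.TFG
  Pool.Agent.EG31 Pool.Agent.H18C Pool.Agent.H62P Pool.Agent.H72N

universe u

set_option linter.unusedSectionVars false
set_option linter.unusedVariables false

variable {V : Type u} [DecidableEq V]

section

variable [Fintype V] {G : SimpleGraph V} [DecidableRel G.Adj] {W : Finset V} {F : List (List V)}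

/-- the number of labels for the component of `y` -/
noncomputable def tau (G : SimpleGraph V) (W : Finset V) (F : List (List V)) (J : Finset V)
    (y : V) : ℕ := by
  classical
  exact ((J.image (comp G F)).erase (comp G F y)).card +
    (W.filter (fun u => u ∈ F.flatten)).card

omit [Fintype V] [DecidableEq V] in
theorem exists_run (P : ℕ → Prop) (N : ℕ) :
    ∃ m, m ≤ N ∧ (∀ i, 1 ≤ i → i ≤ m → P i) ∧ (m < N → ¬ P (m + 1)) := by
  induction N with
  | zero => exact ⟨0, le_rfl, fun i h1 h2 => by omega, fun h => by omega⟩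
  | succ N ih =>
    obtain ⟨m, h1, h2, h3⟩ := ih
    by_cases hm : m < N
    · exact ⟨m, by omega, h2, fun _ => h3 hm⟩
    · have hmN : m = N := by omega
      subst hmN
      by_cases hP : P (m + 1)
      · refine ⟨m + 1, le_rfl, fun i hi hi' => ?_, fun h => by omega⟩
        rcases Nat.lt_or_ge m i with h | h
        · have : i = m + 1 := by omega
          rw [this]
          exact hP
        · exact h2 i hi h
      · exact ⟨m, by omega, h2, fun _ => hP⟩

theorem lab_step {b : ℕ} (hC : CWb G Finset.univ W b) (h2 : Conn2 G Finset.univ)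
    (hM : IsMax G F.length F) (hF1 : F.length = 1) {J : Finset V}
    (hJU : J ⊆ unc F) (hJ : G.IsIndepSet (J : Set V)) (hJW : Disjoint J W)
    (hJc : ∀ x ∈ J, ∀ u ∈ F.flatten, ¬ Blk G W F J u → ¬ G.Adj u x) {n : ℕ}
    (hK : ∀ x ∈ unc F, CWg G (comp G F x) (Sp G W F (comp G F x)) n) {y : V} (hy : y ∈ unc F)
    {I : Finset V} (hI : I ⊆ comp G F y \ Sp G W F (comp G F y))
    (hind : G.IsIndepSet (I : Set V)) {v : V} (hv : v ∈ I)
    (hvc : Conn1 G ((comp G F y).erase v)) :
    I.card + (Sp G W F (comp G F y)).card + (b + (J \ comp G F y).card +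
      (W \ comp G F y).card) + 1 ≤ dU G (comp G F y) v ∨
    ∃ d, d + (n + 3) ≤ tau G W F J y + 2 ∧
      I.card + (Sp G W F (comp G F y)).card + (b + (J \ comp G F y).card +
        (W \ comp G F y).card) + 1 ≤ dU G (comp G F y) v + d := by
  classical
  have hIc : ∀ x ∈ I, x ∈ comp G F y ∧ x ∉ W ∧ x ∉ Sp G W F (comp G F y) := by
    intro x hx
    have h1 := Finset.mem_sdiff.1 (hI hx)
    exact ⟨h1.1, fun h => h1.2 (Finset.mem_union_left _ (Finset.mem_inter.2 ⟨h, h1.1⟩)), h1.2⟩
  have hI' : I ⊆ comp G F y := fun x hx => (hIc x hx).1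
  have hIW : Disjoint I W := Finset.disjoint_left.2 (fun x hx => (hIc x hx).2.1)
  have hgd : Good G (comp G F y) (Sp G W F (comp G F y)) v :=
    ⟨(hIc v hv).1, (hIc v hv).2.2, hvc⟩
  set S0 := SS G W F y v with hS0
  have hSc := SS_card (W := W) hgd
  rw [← hS0] at hSc
  have hSp : (Sp G W F (comp G F y)).card = (W ∩ comp G F y).card +
      (XX G W F (comp G F y)).card := Finset.card_union_of_disjoint XX_W
  have hWc : W.card = (W ∩ comp G F y).card + (W \ comp G F y).card := by
    rw [Finset.card_inter_add_card_sdiff]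
  have hdeg : dU G Finset.univ v = dU G (comp G F y) v +
      ((att G F y).filter (fun w => G.Adj v w)).card := by
    rw [att_deg hy (mem_comp.1 hgd.mem).2, dU_comp hgd.mem]
  -- the runs
  choose g hgle hgB hgN using fun s : V =>
    exists_run (fun i => Blk G W F J ((prv F)^[i] s)) (n + 3)
  have hlk : ∀ s ∈ S0, ∀ t ∈ S0, s ≠ t → Link G F y (n + 3) s t :=
    fun s hs t ht hst => SS_link hC hM hy (hK y hy) hgd hs ht hst
  have hlI : ∀ s ∈ S0, ∀ r ∈ F.flatten, ∀ y' ∈ I, G.Adj r y' → Link G F y (n + 3) r s :=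
    fun s hs r hr y' hy' hadj => SS_linkI hC hM hy (hK y hy) hgd hs (hIc y' hy').1
      (hIc y' hy').2.2 hadj
  have hNR : ∀ s ∈ S0, NoRet F (n + 3) := fun s hs => noRet_SS hC h2 hM hF1 hy (hK y hy) hgd hs
  by_cases hB : (∀ s ∈ S0, g s < n + 3) ∧ ∀ s ∈ S0, ∀ t ∈ S0, s ≠ t → g s + g t < n + 3
  · left
    have h1 := cnt_T hC hM hJU hJ hJW hJc hy hI' hIW hind hv (T := S0) SS_att
      (fun ⟨s, hs⟩ => hNR s hs) hlk hlI hB.1 hB.2 (fun s hs => hgN s (hB.1 s hs))
    omega
  right
  set T := S0.filter (fun s => g s = 0) with hT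
  have hTS : T ⊆ S0 := Finset.filter_subset _ _
  have hT0 : ∀ s ∈ T, g s = 0 := fun s hs => (Finset.mem_filter.1 hs).2
  have h1 := cnt_T hC hM hJU hJ hJW hJc hy hI' hIW hind hv (T := T) (hTS.trans SS_att)
      (fun ⟨s, hs⟩ => hNR s (hTS hs)) (fun s hs t ht => hlk s (hTS hs) t (hTS ht))
      (fun s hs => hlI s (hTS hs)) (fun s hs => by rw [hT0 s hs]; omega)
      (fun s hs t ht _ => by rw [hT0 s hs, hT0 t ht]; omega)
      (fun s hs => hgN s (by rw [hT0 s hs]; omega))
  have hsum : ∀ B : Finset V, (B.filter (fun s => g s ≠ 0)).card ≤ ∑ s ∈ B, g s := by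
    intro B
    rw [Finset.card_eq_sum_ones, Finset.sum_filter]
    refine Finset.sum_le_sum (fun s _ => ?_)
    split_ifs with h
    · omega
    · exact Nat.zero_le _
  have her : ∀ (B : Finset V) (s : V), (B.filter (fun s => g s ≠ 0)).card ≤
      ((B.erase s).filter (fun s => g s ≠ 0)).card + 1 := by
    intro B s
    have : B.filter (fun s => g s ≠ 0) ⊆ insert s ((B.erase s).filter (fun s => g s ≠ 0)) := by
      intro x hx
      rw [Finset.mem_filter] at hx
      by_cases hxs : x = s
      · rw [hxs]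
        exact Finset.mem_insert_self _ _
      · exact Finset.mem_insert_of_mem (Finset.mem_filter.2 ⟨Finset.mem_erase.2 ⟨hxs, hx.1⟩, hx.2⟩)
    exact (Finset.card_le_card this).trans (Finset.card_insert_le _ _)
  have hne : ∃ s, s ∈ S0 := by
    by_contra hcon
    push Not at hcon
    exact hB ⟨fun s hs => absurd hs (hcon s), fun s hs => absurd hs (hcon s)⟩
  obtain ⟨s₁, hs₁⟩ := hne
  have hlab := lab_card hM hJU hK hy (hNR s₁ hs₁) (B := S0) SS_att hlk (a := g)
    (fun s _ => hgle s) (fun s _ => hgB s)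
  have htau : tau G W F J y = ((J.image (comp G F)).erase (comp G F y)).card +
      (W.filter (fun u => u ∈ F.flatten)).card := by
    unfold tau
    congr!
  refine ⟨(S0.filter (fun s => g s ≠ 0)).card, ?_, ?_⟩
  · rw [htau]
    refine le_trans ?_ (Nat.add_le_add_right hlab 2)
    by_cases hB1 : ∀ s ∈ S0, g s < n + 3
    · have hB2 : ∃ s ∈ S0, ∃ t ∈ S0, s ≠ t ∧ n + 3 ≤ g s + g t := by
        by_contra hcon
        push Not at hcon
        exact hB ⟨hB1, hcon⟩
      obtain ⟨s, hs, t, ht, hst, hle⟩ := hB2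
      have e1 := Finset.add_sum_erase S0 g hs
      have e2 := Finset.add_sum_erase (S0.erase s) g (Finset.mem_erase.2 ⟨hst.symm, ht⟩)
      have e3 := hsum ((S0.erase s).erase t)
      have e4 := her S0 s
      have e5 := her (S0.erase s) t
      omega
    · push Not at hB1
      obtain ⟨s, hs, hle⟩ := hB1
      have e1 := Finset.add_sum_erase S0 g hs
      have e3 := hsum (S0.erase s)
      have e4 := her S0 s
      omega
  · have hc := Finset.card_filter_add_card_filter_not (s := S0) (fun s => g s = 0)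
    have hc' : (S0.filter (fun s => ¬ g s = 0)).card = (S0.filter (fun s => g s ≠ 0)).card := rfl
    rw [← hT] at hc
    omega

/-- CONFLICT LEMMA -/
theorem lab' {b : ℕ} (hC : CWb G Finset.univ W b) (h2 : Conn2 G Finset.univ)
    (hM : IsMax G F.length F) (hF1 : F.length = 1) {J : Finset V}
    (hJU : J ⊆ unc F) (hJ : G.IsIndepSet (J : Set V)) (hJW : Disjoint J W)
    (hJc : ∀ x ∈ J, ∀ u ∈ F.flatten, ¬ Blk G W F J u → ¬ G.Adj u x)
    (hJr : ∀ y ∈ unc F, ∀ v, Good G (comp G F y) (Sp G W F (comp G F y)) v →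
      ∃ x ∈ J, x ∈ comp G F y) :
    ∀ y ∈ unc F, CWg G (comp G F y) (Sp G W F (comp G F y))
      (b + (J \ comp G F y).card + (W \ comp G F y).card) := by
  classical
  set τ := ((J.image (comp G F)).card - 1) + (W.filter (fun u => u ∈ F.flatten)).card with hτ
  have htau : ∀ y ∈ unc F, ∀ v, Good G (comp G F y) (Sp G W F (comp G F y)) v →
      tau G W F J y = τ := by
    intro y hy v hv
    obtain ⟨x, hx, hxy⟩ := hJr y hy v hv
    have h1 : tau G W F J y = ((J.image (comp G F)).erase (comp G F y)).card +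
        (W.filter (fun u => u ∈ F.flatten)).card := by
      unfold tau
      congr!
    rw [h1, Finset.card_erase_of_mem (Finset.mem_image.2 ⟨x, hx, comp_eq hxy⟩)]
  have hle : ∀ y ∈ unc F, ∀ v, Good G (comp G F y) (Sp G W F (comp G F y)) v →
      τ ≤ (J \ comp G F y).card + (W \ comp G F y).card := by
    intro y hy v hv
    rw [← htau y hy v hv]
    have h1 : tau G W F J y = ((J.image (comp G F)).erase (comp G F y)).card +
        (W.filter (fun u => u ∈ F.flatten)).card := by
      unfold tau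
      congr!
    rw [h1]
    refine Nat.add_le_add ?_ ?_
    · have : (J.image (comp G F)).erase (comp G F y) ⊆ (J \ comp G F y).image (comp G F) := by
        intro Z hZ
        rw [Finset.mem_erase] at hZ
        obtain ⟨x, hx, rfl⟩ := Finset.mem_image.1 hZ.2
        exact Finset.mem_image.2 ⟨x, Finset.mem_sdiff.2 ⟨hx, fun h => hZ.1 (comp_eq h)⟩, rfl⟩
      exact (Finset.card_le_card this).trans Finset.card_image_le
    · refine Finset.card_le_card ?_
      intro x hx
      rw [Finset.mem_filter] at hx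
      exact Finset.mem_sdiff.2 ⟨hx.1, fun h => mem_unc.1 (mem_comp.1 h).1 hx.2⟩
  have hgood : ∀ y, ∀ I ⊆ comp G F y \ Sp G W F (comp G F y), ∀ v ∈ I,
      Conn1 G ((comp G F y).erase v) → Good G (comp G F y) (Sp G W F (comp G F y)) v :=
    fun y I hI v hv hvc => ⟨(Finset.mem_sdiff.1 (hI hv)).1, (Finset.mem_sdiff.1 (hI hv)).2, hvc⟩
  have key : ∀ n, n ≤ b + τ → ∀ y ∈ unc F,
      CWg G (comp G F y) (Sp G W F (comp G F y)) n := by
    intro n
    induction n with
    | zero =>
      intro _ y hy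
      exact (cwg_of_cwb (K0 hC hM hy)).mono (Nat.zero_le _)
    | succ n ih =>
      intro hn y hy I hI hind v hv hvc
      have hg := hgood y I hI v hv hvc
      have h3 := htau y hy v hg
      have h4 := hle y hy v hg
      rcases lab_step hC h2 hM hF1 hJU hJ hJW hJc (ih (by omega)) hy hI hind hv hvc with
        h | ⟨d, h5, h6⟩
      · omega
      · rw [h3] at h5
        omega
  intro y hy I hI hind v hv hvc
  have hg := hgood y I hI v hv hvc
  have h3 := htau y hy v hg
  have h4 := hle y hy v hg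
  rcases lab_step hC h2 hM hF1 hJU hJ hJW hJc (key (b + τ) le_rfl) hy hI hind hv hvc with
    h | ⟨d, h5, h6⟩
  · omega
  · rw [h3] at h5
    omega

/-- good elements of `J` are adjacent to blocked vertices of the cycle only -/
theorem J_blk {J : Finset V}
    (hJg : ∀ x ∈ J, Good G (comp G F x) (Sp G W F (comp G F x)) x) :
    ∀ x ∈ J, ∀ u ∈ F.flatten, ¬ Blk G W F J u → ¬ G.Adj u x :=
  fun x hx u hu hb hadj => hb (Or.inr ⟨x, hx, good_rich (hJg x hx) hu hadj⟩)

/-- CONFLICT LEMMA for a set of good vertices -/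
theorem lab {b : ℕ} (hC : CWb G Finset.univ W b) (h2 : Conn2 G Finset.univ)
    (hM : IsMax G F.length F) (hF1 : F.length = 1) {J : Finset V}
    (hJU : J ⊆ unc F) (hJ : G.IsIndepSet (J : Set V))
    (hJg : ∀ x ∈ J, Good G (comp G F x) (Sp G W F (comp G F x)) x)
    (hJr : ∀ y ∈ unc F, ∀ v, Good G (comp G F y) (Sp G W F (comp G F y)) v →
      ∃ x ∈ J, x ∈ comp G F y) :
    ∀ y ∈ unc F, CWg G (comp G F y) (Sp G W F (comp G F y))
      (b + (J \ comp G F y).card + (W \ comp G F y).card) := by
  refine lab' hC h2 hM hF1 hJU hJ ?_ (J_blk hJg) hJr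
  rw [Finset.disjoint_left]
  exact fun x hx hW => (hJg x hx).nS (Finset.mem_union_left _
    (Finset.mem_inter.2 ⟨hW, self_comp (hJU hx)⟩))

end

end Pool.Agent.H6T.Lab
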