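import Pool.Agent.H6T.Lab

/-! Conflict lemma with labels.  Part 2: links, labels of the blocked vertices. -/

set_option autoImplicit false

namespace Pool.Agent.H6T.Lab

open List Pool.Agent.TF82 Pool.Agent.TFC Pool.Agent.TFB Pool.Agent.TFN Pool.Agent.TFG
  Pool.Agent.EG31 Pool.Agent.H18C Pool.Agent.H62P Pool.Agent.H72N

universe u

set_option linter.unusedSectionVars false
set_option linter.unusedVariables false

variable {V : Type u} [DecidableEq V]

section

variable [Fintype V] {G : SimpleGraph V} [DecidableRel G.Adj] {W : Finset V} {F : List (List V)}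

theorem mk_link {y : V} (hy : y ∈ unc F) {n : ℕ}
    (hK : CWg G (comp G F y) (Sp G W F (comp G F y)) n) {s t p q : V} (hp : p ∈ comp G F y)
    (hq : q ∈ comp G F y) (hsp : G.Adj s p) (htq : G.Adj t q)
    (hn : ¬ Near G (comp G F y) (Sp G W F (comp G F y)) p q) : Link G F y (n + 3) s t := by
  obtain ⟨Q, h1, h2, h3, h4⟩ := near_linkg (comp_conn1 hy) Sp_sub hK hp hq hn
  exact ⟨Q, p, q, h1, h2, h3, h4, hsp, htq⟩

theorem rich_link' {y : V} (hy : y ∈ unc F) {n : ℕ}
    (hK : CWg G (comp G F y) (Sp G W F (comp G F y)) n) {s t q : V}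
    (hs : Rich G W F (comp G F y) s) (hq : q ∈ comp G F y) (htq : G.Adj t q) :
    Link G F y (n + 3) s t := by
  obtain ⟨x, hx, x', hx', h1, h2, h3⟩ := hs
  rcases near_or (comp_conn1 hy) hq h3 with h | h
  · exact mk_link hy hK hx hq h1 htq (fun hn => h (near_symm hn))
  · exact mk_link hy hK hx' hq h2 htq (fun hn => h (near_symm hn))

theorem rich_att {y s : V} (hs : Rich G W F (comp G F y) s) (hsF : s ∈ F.flatten) :
    s ∈ att G F y := by
  obtain ⟨x, hx, x', hx', h1, h2, h3⟩ := hs
  exact mem_att.2 ⟨hsF, x, (mem_comp.1 hx).2, h1⟩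

theorem att_nb {y s : V} (hy : y ∈ unc F) (hs : s ∈ att G F y) : ∃ q ∈ comp G F y, G.Adj s q := by
  obtain ⟨h1, x, h2, h3⟩ := mem_att.1 hs
  exact ⟨x, mem_comp.2 ⟨reach_unc hy h2, h2⟩, h3⟩

/-- a link between different hubs excludes short returns -/
theorem noRet_of_link (hM : IsMax G F.length F) (hF1 : F.length = 1) {s t y : V} {n : ℕ}
    (hs : s ∈ F.flatten) (ht : t ∈ F.flatten) (hst : s ≠ t) (hl : Link G F y n s t) :
    NoRet F n := by
  intro x hx i hi hin h
  have h1 : F.flatten.length ≤ i := by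
    by_contra hc
    exact iter_ne_one hM.fam hF1 hx i hi (by omega) h
  obtain ⟨b, hb, hb'⟩ := TFA.exists_back hM.fam hF1 hs ht
  exact link_far hM hs hl.symm hst b (by omega) hb'

theorem hub1r (hM : IsMax G F.length F) {lam : ℕ} (hR : NoRet F lam) {s y : V}
    (hs : s ∈ F.flatten) {a n : ℕ} (ha : a ≤ lam)
    (hl : Link G F y n ((prv F)^[a + 1] s) s) : n ≤ a := by
  obtain ⟨Q, x1, x2, h1, h2, h3, h4, h5, h6⟩ := hl
  have := route1 hM hs (a := a) (fun i hi hia => hR s hs i hi (hia.trans ha))
    (chain_ends h1.ch h1.hd h1.lt h5 h6.symm) h2 (fun x hx => mem_unc.1 (mem_comp.1 (h3 x hx)).1)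
  omega

theorem hub3r (hM : IsMax G F.length F) {lam : ℕ} (hR : NoRet F lam) {s t y y' : V}
    (hs : s ∈ F.flatten) (ht : t ∈ F.flatten) (hst : s ≠ t) (hy : y ∈ unc F) (hy' : y' ∈ unc F)
    (hyy : y' ∉ comp G F y) {a b n n' : ℕ} (ha : a ≤ lam) (hb : b ≤ lam)
    (hsa : ∀ i, 1 ≤ i → i ≤ a → (prv F)^[i] s ≠ t) (htb : ∀ i, 1 ≤ i → i ≤ b → (prv F)^[i] t ≠ s)
    (hl : Link G F y n s t) (hl' : Link G F y' n' ((prv F)^[a + 1] s) ((prv F)^[b + 1] t)) :
    n + n' ≤ a + b := by
  obtain ⟨Q, x1, x2, h1, h2, h3, h4, h5, h6⟩ := hl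
  obtain ⟨Q', x1', x2', g1, g2, g3, g4, g5, g6⟩ := hl'
  have hn : (Q' ++ Q).Nodup := by
    rw [List.nodup_append]
    refine ⟨g2, h2, ?_⟩
    rintro z hz' _ hz rfl
    exact hyy (mem_comp.2 ⟨hy', Relation.ReflTransGen.trans (mem_comp.1 (h3 z hz)).2
      (Reach.symm (mem_comp.1 (g3 z hz')).2)⟩)
  have := route2 hM hs ht hst (a := a) (b := b) (X := Q') (Y := Q)
    (fun i hi hia => ⟨hR s hs i hi (hia.trans ha), hsa i hi hia⟩)
    (fun i hi hib => ⟨hR t ht i hi (hib.trans hb), htb i hi hib⟩)
    (chain_ends g1.ch g1.hd g1.lt g5 g6.symm)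
    (chain_ends h1.ch h1.hd h1.lt h5 h6.symm) hn
    (fun x hx => by
      rcases List.mem_append.1 hx with hx | hx
      · exact mem_unc.1 (mem_comp.1 (g3 x hx)).1
      · exact mem_unc.1 (mem_comp.1 (h3 x hx)).1)
  omega

/-- iterates of one vertex -/
theorem iter_ne_self (hF : Fam G F) {lam : ℕ} (hR : NoRet F lam) {s : V} (hs : s ∈ F.flatten)
    {j j' : ℕ} (h1 : j < j') (h2 : j' ≤ lam) : (prv F)^[j] s ≠ (prv F)^[j'] s := by
  intro h
  have e1 : j' = j + (j' - j) := by omega
  have e : (prv F)^[j'] s = (prv F)^[j] ((prv F)^[j' - j] s) := by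
    rw [← Function.iterate_add_apply, ← e1]
  rw [e] at h
  exact hR s hs (j' - j) (by omega) (by omega) (iter_inj hF hs (iter_mem hF hs _) j h).symm

open Classical in
/-- label of a blocked vertex -/
noncomputable def lb (G : SimpleGraph V) (W : Finset V) (F : List (List V)) (J : Finset V) (r : V) :
    Finset V :=
  if r ∈ W then {r} else if h : ∃ x ∈ J, Rich G W F (comp G F x) r then comp G F h.choose else ∅

theorem lb_W {J : Finset V} {r : V} (h : r ∈ W) : lb G W F J r = {r} := by
  unfold lb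
  rw [if_pos h]

theorem lb_J {J : Finset V} {r : V} (h : r ∉ W) (hb : Blk G W F J r) :
    ∃ x ∈ J, Rich G W F (comp G F x) r ∧ lb G W F J r = comp G F x := by
  have h' : ∃ x ∈ J, Rich G W F (comp G F x) r := hb.resolve_left h
  refine ⟨h'.choose, h'.choose_spec.1, h'.choose_spec.2, ?_⟩
  unfold lb
  rw [if_neg h, dif_pos h']

/-- LABELS: all runs of pairwise linked hubs of one component together are short -/
theorem lab_card (hM : IsMax G F.length F) {J : Finset V} (hJU : J ⊆ unc F) {n : ℕ}
    (hK : ∀ x ∈ unc F, CWg G (comp G F x) (Sp G W F (comp G F x)) n) {y : V} (hy : y ∈ unc F)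
    (hR : NoRet F (n + 3)) {B : Finset V} (hB : B ⊆ att G F y)
    (hBl : ∀ s ∈ B, ∀ t ∈ B, s ≠ t → Link G F y (n + 3) s t) {a : V → ℕ}
    (ha : ∀ s ∈ B, a s ≤ n + 3)
    (hb : ∀ s ∈ B, ∀ j, 1 ≤ j → j ≤ a s → Blk G W F J ((prv F)^[j] s)) :
    ∑ s ∈ B, a s ≤ ((J.image (comp G F)).erase (comp G F y)).card +
      (W.filter (fun u => u ∈ F.flatten)).card := by
  classical
  have hBF : ∀ s ∈ B, s ∈ F.flatten := fun s hs => (mem_att.1 (hB hs)).1
  have hcard : (B.sigma (fun s => Finset.Icc 1 (a s))).card = ∑ s ∈ B, a s := by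
    rw [Finset.card_sigma]
    refine Finset.sum_congr rfl (fun s _ => ?_)
    simp
  rw [← hcard]
  have hT : (((J.image (comp G F)).erase (comp G F y)) ∪
      ((W.filter (fun u => u ∈ F.flatten)).image (fun r => ({r} : Finset V)))).card ≤
      ((J.image (comp G F)).erase (comp G F y)).card +
      (W.filter (fun u => u ∈ F.flatten)).card :=
    (Finset.card_union_le _ _).trans (Nat.add_le_add_left Finset.card_image_le _)
  refine le_trans ?_ hT
  -- links through the label
  have hlk : ∀ x ∈ J, ∀ r r' : V, Rich G W F (comp G F x) r → Rich G W F (comp G F x) r' →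
      Link G F x (n + 3) r r' := by
    intro x hx r r' hr hr'
    obtain ⟨p, hp, p', hp', h1, h2, h3⟩ := hr'
    exact rich_link' (hJU hx) (hK x (hJU hx)) hr hp h1
  -- the label is not the component of `y`
  have hnZ : ∀ s ∈ B, ∀ j, 1 ≤ j → j ≤ a s → ∀ x ∈ J,
      Rich G W F (comp G F x) ((prv F)^[j] s) → comp G F x ≠ comp G F y := by
    intro s hs j hj hja x hx hr he
    rw [he] at hr
    obtain ⟨q, hq, hsq⟩ := att_nb hy (hB hs)
    have hl := rich_link' hy (hK y hy) hr hq hsq
    have hj' : j - 1 + 1 = j := by omega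
    rw [← hj'] at hl
    have := hub1r hM hR (hBF s hs) (a := j - 1) (by have := ha s hs; omega) hl
    have := ha s hs
    omega
  refine Finset.card_le_card_of_injOn (fun q => lb G W F J ((prv F)^[q.2] q.1)) ?_ ?_
  · rintro ⟨s, j⟩ hq
    rw [Finset.mem_coe, Finset.mem_sigma, Finset.mem_Icc] at hq
    obtain ⟨hs, hj, hja⟩ := hq
    simp only at hs hj hja ⊢
    have hbl := hb s hs j hj hja
    have hrF := iter_mem hM.fam (hBF s hs) j
    rw [Finset.mem_coe]
    by_cases hW : (prv F)^[j] s ∈ W
    · rw [lb_W hW]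
      exact Finset.mem_union_right _ (Finset.mem_image.2 ⟨_, Finset.mem_filter.2 ⟨hW, hrF⟩, rfl⟩)
    · obtain ⟨x, hx, hr, he⟩ := lb_J hW hbl
      rw [he]
      exact Finset.mem_union_left _ (Finset.mem_erase.2 ⟨hnZ s hs j hj hja x hx hr,
        Finset.mem_image.2 ⟨x, hx, rfl⟩⟩)
  · rintro ⟨s, j⟩ hq ⟨s', j'⟩ hq' h
    rw [Finset.mem_coe, Finset.mem_sigma, Finset.mem_Icc] at hq hq'
    obtain ⟨hs, hj, hja⟩ := hq
    obtain ⟨hs', hj', hja'⟩ := hq'
    simp only at hs hj hja hs' hj' hja' h
    have hbl := hb s hs j hj hja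
    have hbl' := hb s' hs' j' hj' hja'
    have hrF := iter_mem hM.fam (hBF s hs) j
    have hrF' := iter_mem hM.fam (hBF s' hs') j'
    have h3 := ha s hs
    have h3' := ha s' hs'
    by_contra hne
    -- the vertices are different
    have hv : (prv F)^[j] s ≠ (prv F)^[j'] s' := by
      by_cases hss : s = s'
      · subst hss
        have hjj : j ≠ j' := by
          rintro rfl
          exact hne rfl
        rcases Nat.lt_or_gt_of_ne hjj with h1 | h1
        · exact iter_ne_self hM.fam hR (hBF s hs) h1 (by omega)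
        · exact (iter_ne_self hM.fam hR (hBF s hs) h1 (by omega)).symm
      · exact link_iter_ne hM (hBF s hs) (hBF s' hs') hss (hBl s hs s' hs' hss) (by omega)
          (by omega)
    by_cases hW : (prv F)^[j] s ∈ W
    · rw [lb_W hW] at h
      by_cases hW' : (prv F)^[j'] s' ∈ W
      · rw [lb_W hW'] at h
        exact hv (Finset.singleton_injective h)
      · obtain ⟨x, hx, hr, he⟩ := lb_J hW' hbl'
        rw [he] at h
        have : (prv F)^[j] s ∈ comp G F x := h ▸ Finset.mem_singleton_self _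
        exact mem_unc.1 (mem_comp.1 this).1 hrF
    · obtain ⟨x, hx, hr, he⟩ := lb_J hW hbl
      rw [he] at h
      by_cases hW' : (prv F)^[j'] s' ∈ W
      · rw [lb_W hW'] at h
        have : (prv F)^[j'] s' ∈ comp G F x := h ▸ Finset.mem_singleton_self _
        exact mem_unc.1 (mem_comp.1 this).1 hrF'
      · obtain ⟨x', hx', hr', he'⟩ := lb_J hW' hbl'
        rw [he'] at h
        rw [← h] at hr'
        have hl := hlk x hx _ _ hr hr'
        by_cases hss : s = s'
        · subst hss
          have key : ∀ i i' : ℕ, i < i' → i' ≤ n + 3 →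
              ¬ Link G F x (n + 3) ((prv F)^[i'] s) ((prv F)^[i] s) := by
            intro i i' hii hi' hl
            have e : (prv F)^[i'] s = (prv F)^[(i' - i - 1) + 1] ((prv F)^[i] s) := by
              rw [← Function.iterate_add_apply]
              congr 1
              omega
            rw [e] at hl
            have := hub1r hM hR (iter_mem hM.fam (hBF s hs) i) (a := i' - i - 1) (by omega) hl
            omega
          have hjj : j ≠ j' := by
            rintro rfl
            exact hne rfl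
          rcases Nat.lt_or_gt_of_ne hjj with h1 | h1
          · exact key j j' h1 (by omega) hl.symm
          · exact key j' j h1 (by omega) hl
        · have hxy : x ∉ comp G F y := fun hx' => hnZ s hs j hj hja x hx hr (comp_eq hx')
          have hll := hBl s hs s' hs' hss
          have f1 := link_far hM (hBF s hs) hll.symm hss
          have f2 := link_far hM (hBF s' hs') hll (Ne.symm hss)
          have e1 : j - 1 + 1 = j := by omega
          have e2 : j' - 1 + 1 = j' := by omega
          have hl2 : Link G F x (n + 3) ((prv F)^[(j - 1) + 1] s) ((prv F)^[(j' - 1) + 1] s') := by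
            rw [e1, e2]
            exact hl
          have := hub3r hM hR (hBF s hs) (hBF s' hs') hss hy (hJU hx) hxy (a := j - 1)
            (b := j' - 1) (by omega) (by omega) (fun i _ hi => f1 i (by omega))
            (fun i _ hi => f2 i (by omega)) hll hl2
          omega

end

end Pool.Agent.H6T.Lab
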