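import Pool.Agent.H6T.Lab2

/-! Conflict lemma with labels.  Part 3: the surplus. -/

set_option autoImplicit false

namespace Pool.Agent.H6T.Lab

open List Pool.Agent.TF82 Pool.Agent.TFC Pool.Agent.TFB Pool.Agent.TFN Pool.Agent.TFG
  Pool.Agent.EG31 Pool.Agent.H18C Pool.Agent.H62P Pool.Agent.H72N

universe u

set_option linter.unusedSectionVars false
set_option linter.unusedVariables false

variable {V : Type u} [DecidableEq V]

section

variable [Fintype V] {G : SimpleGraph V} [DecidableRel G.Adj] {W : Finset V} {F : List (List V)}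

theorem comp_cl {y a c : V} (ha : a ∈ comp G F y) (hc : c ∈ unc F) (hac : G.Adj a c) :
    c ∈ comp G F y :=
  mem_comp.2 ⟨hc, Relation.ReflTransGen.tail (mem_comp.1 ha).2 ⟨(mem_comp.1 ha).1, hc, hac⟩⟩

/-- the degree condition for `I`, the rest of `J` and the ends of some runs -/
theorem cnt_T {b : ℕ} (hC : CWb G Finset.univ W b) (hM : IsMax G F.length F) {J : Finset V}
    (hJU : J ⊆ unc F) (hJ : G.IsIndepSet (J : Set V)) (hJW : Disjoint J W)
    (hJc : ∀ x ∈ J, ∀ u ∈ F.flatten, ¬ Blk G W F J u → ¬ G.Adj u x) {y : V} (hy : y ∈ unc F)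
    {I : Finset V} (hI : I ⊆ comp G F y) (hIW : Disjoint I W) (hind : G.IsIndepSet (I : Set V))
    {v : V} (hv : v ∈ I) {T : Finset V} (hT : T ⊆ att G F y) {g : V → ℕ} {lam : ℕ}
    (hR : T.Nonempty → NoRet F lam)
    (hTl : ∀ s ∈ T, ∀ t ∈ T, s ≠ t → Link G F y lam s t)
    (hTI : ∀ s ∈ T, ∀ r ∈ F.flatten, ∀ y' ∈ I, G.Adj r y' → Link G F y lam r s)
    (hg : ∀ s ∈ T, g s < lam) (hgg : ∀ s ∈ T, ∀ t ∈ T, s ≠ t → g s + g t < lam)
    (hub : ∀ s ∈ T, ¬ Blk G W F J ((prv F)^[g s + 1] s)) :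
    I.card + (J \ comp G F y).card + T.card + W.card + b + 1 ≤ dU G Finset.univ v := by
  classical
  set E : Finset V := T.image (fun s => (prv F)^[g s + 1] s) with hE
  have hTF : ∀ s ∈ T, s ∈ F.flatten := fun s hs => (mem_att.1 (hT hs)).1
  have hEc : E.card = T.card := by
    refine Finset.card_image_of_injOn ?_
    intro s hs t ht hst
    by_contra hne
    exact link_iter_ne hM (hTF s hs) (hTF t ht) hne (hTl s hs t ht hne)
      (Nat.succ_le_of_lt (hg s hs)) (Nat.succ_le_of_lt (hg t ht)) hst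
  have hEm : ∀ e ∈ E, ∃ s ∈ T, e = (prv F)^[g s + 1] s := by
    intro e he
    obtain ⟨s, hs, rfl⟩ := Finset.mem_image.1 he
    exact ⟨s, hs, rfl⟩
  have hEF : ∀ e ∈ E, e ∈ F.flatten := by
    intro e he
    obtain ⟨s, hs, rfl⟩ := hEm e he
    exact iter_mem hM.fam (hTF s hs) _
  have hJm : ∀ x ∈ J \ comp G F y, x ∈ J ∧ x ∈ unc F ∧ x ∉ comp G F y := fun x hx =>
    ⟨(Finset.mem_sdiff.1 hx).1, hJU (Finset.mem_sdiff.1 hx).1, (Finset.mem_sdiff.1 hx).2⟩
  have d1 : Disjoint I (J \ comp G F y) :=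
    Finset.disjoint_left.2 (fun x hx hx' => (hJm x hx').2.2 (hI hx))
  have d2 : Disjoint (I ∪ (J \ comp G F y)) E := by
    rw [Finset.disjoint_left]
    intro x hx hx'
    rcases Finset.mem_union.1 hx with h | h
    · exact mem_unc.1 (mem_comp.1 (hI h)).1 (hEF x hx')
    · exact mem_unc.1 (hJm x h).2.1 (hEF x hx')
  have hIE : ∀ a ∈ I, ∀ e ∈ E, ¬ G.Adj a e := by
    intro a ha e he hadj
    obtain ⟨s, hs, rfl⟩ := hEm e he
    have hl := hTI s hs _ (iter_mem hM.fam (hTF s hs) _) a ha hadj.symm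
    have h1 := hg s hs
    have := hub1r hM (hR ⟨s, hs⟩) (hTF s hs) (a := g s) h1.le hl
    omega
  have hIJ : ∀ a ∈ I, ∀ x ∈ J \ comp G F y, ¬ G.Adj a x := by
    intro a ha x hx hadj
    exact (hJm x hx).2.2 (comp_cl (hI ha) (hJm x hx).2.1 hadj)
  have hJE : ∀ x ∈ J \ comp G F y, ∀ e ∈ E, ¬ G.Adj x e := by
    intro x hx e he hadj
    obtain ⟨s, hs, rfl⟩ := hEm e he
    exact hJc x (hJm x hx).1 _ (iter_mem hM.fam (hTF s hs) _) (hub s hs) hadj.symm
  have key := hC ((I ∪ (J \ comp G F y)) ∪ E) (by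
      intro x hx
      rw [Finset.mem_sdiff]
      refine ⟨Finset.mem_univ _, ?_⟩
      rcases Finset.mem_union.1 hx with h | h
      · rcases Finset.mem_union.1 h with h | h
        · exact Finset.disjoint_left.1 hIW h
        · exact Finset.disjoint_left.1 hJW (hJm x h).1
      · obtain ⟨s, hs, rfl⟩ := hEm x h
        exact fun hW => hub s hs (Or.inl hW)) (by
      intro p hp q hq hpq
      rw [Finset.mem_coe, Finset.mem_union, Finset.mem_union] at hp hq
      rcases hp with (hp | hp) | hp <;> rcases hq with (hq | hq) | hq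
      · exact hind hp hq hpq
      · exact hIJ p hp q hq
      · exact hIE p hp q hq
      · exact fun h => hIJ q hq p hp h.symm
      · exact hJ (Finset.mem_coe.2 (hJm p hp).1) (Finset.mem_coe.2 (hJm q hq).1) hpq
      · exact hJE p hp q hq
      · exact fun h => hIE q hq p hp h.symm
      · exact fun h => hJE q hq p hp h.symm
      · obtain ⟨s, hs, rfl⟩ := hEm p hp
        obtain ⟨t, ht, rfl⟩ := hEm q hq
        have hst : s ≠ t := by
          rintro rfl
          exact hpq rfl
        exact link_nonadj hM (hTF s hs) (hTF t ht) hst (hTl s hs t ht hst) (hR ⟨s, hs⟩)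
          (hgg s hs t ht hst)) v (Finset.mem_union_left _ (Finset.mem_union_left _ hv))
  rw [Finset.card_union_of_disjoint d2, Finset.card_union_of_disjoint d1, hEc] at key
  omega

/-- a vertex which is no cut vertex and clean is near to no other vertex -/
theorem good_not_near {H S : Finset V} {v x : V} (hv : Good G H S v) (hne : v ≠ x) :
    ¬ Near G H S v x := by
  intro h
  obtain ⟨w, hw, hwv, h1, h2⟩ := h hne v hv
  rcases h1 with h1 | h1
  · exact hwv h1.symm
  · exact h1 Relation.ReflTransGen.refl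

/-- a good vertex sees only rich hubs -/
theorem good_rich {y v u : V} (hv : Good G (comp G F y) (Sp G W F (comp G F y)) v)
    (hu : u ∈ F.flatten) (huv : G.Adj u v) : Rich G W F (comp G F y) u := by
  by_cases h : ∃ x' ∈ comp G F y, G.Adj u x' ∧ x' ≠ v
  · obtain ⟨x', h1, h2, h3⟩ := h
    exact ⟨v, hv.mem, x', h1, huv, h2, good_not_near hv h3.symm⟩
  · exfalso
    push Not at h
    refine hv.nS (Finset.mem_union_right _ (mem_XX.2 ⟨hv.mem, fun hW => hv.nS
      (Finset.mem_union_left _ (Finset.mem_inter.2 ⟨hW, hv.mem⟩)), hv.nc, u, hu, huv, h⟩))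

open Classical in
/-- the hubs adjacent to `v` and one pendant hub for each unclean vertex -/
noncomputable def SS (G : SimpleGraph V) (W : Finset V) (F : List (List V)) (y v : V) :
    Finset V :=
  (att G F y).filter (fun w => G.Adj v w) ∪ (XX G W F (comp G F y)).image (pend G F (comp G F y))

theorem mem_SS {y v s : V} : s ∈ SS G W F y v ↔ (s ∈ att G F y ∧ G.Adj v s) ∨
    ∃ x ∈ XX G W F (comp G F y), pend G F (comp G F y) x = s := by
  classical
  simp only [SS, Finset.mem_union, Finset.mem_filter, Finset.mem_image]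

theorem SS_att {y v : V} : SS G W F y v ⊆ att G F y := by
  intro s hs
  rcases mem_SS.1 hs with h | ⟨x, hx, rfl⟩
  · exact h.1
  · have hp := pend_spec hx
    exact mem_att.2 ⟨hp.1, x, (mem_comp.1 (mem_XX.1 hx).1).2, hp.2.1⟩

theorem SS_card {y v : V} (hv : Good G (comp G F y) (Sp G W F (comp G F y)) v) :
    (SS G W F y v).card = ((att G F y).filter (fun w => G.Adj v w)).card +
      (XX G W F (comp G F y)).card := by
  classical
  have h1 : SS G W F y v = (att G F y).filter (fun w => G.Adj v w) ∪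
      (XX G W F (comp G F y)).image (pend G F (comp G F y)) := by
    ext s
    rw [mem_SS, Finset.mem_union, Finset.mem_filter, Finset.mem_image]
  rw [h1, Finset.card_union_of_disjoint, Finset.card_image_of_injOn]
  · intro x hx x' hx' hxx
    have hp := pend_spec (Finset.mem_coe.1 hx)
    have hp' := pend_spec (Finset.mem_coe.1 hx')
    rw [hxx] at hp
    exact hp'.2.2 x (mem_XX.1 (Finset.mem_coe.1 hx)).1 hp.2.1
  · rw [Finset.disjoint_left]
    intro s hs hs'
    obtain ⟨x, hx, rfl⟩ := Finset.mem_image.1 hs'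
    have hp := pend_spec hx
    have hvx := hp.2.2 v hv.mem (Finset.mem_filter.1 hs).2.symm
    exact hv.nS (Finset.mem_union_right _ (hvx ▸ hx))

theorem SS_linkI {b : ℕ} (hC : CWb G Finset.univ W b) (hM : IsMax G F.length F) {y : V}
    (hy : y ∈ unc F) {n : ℕ} (hK : CWg G (comp G F y) (Sp G W F (comp G F y)) n) {v : V}
    (hv : Good G (comp G F y) (Sp G W F (comp G F y)) v) {s : V} (hs : s ∈ SS G W F y v) {r y' : V}
    (hy' : y' ∈ comp G F y) (hyS : y' ∉ Sp G W F (comp G F y)) (hr : G.Adj r y') :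
    Link G F y (n + 3) r s := by
  rcases mem_SS.1 hs with h | ⟨x, hx, rfl⟩
  · exact (rich_link' hy hK (good_rich hv (mem_att.1 h.1).1 h.2.symm) hy' hr).symm
  · have hp := pend_spec hx
    have hne : y' ≠ x := by
      rintro rfl
      exact hyS (Finset.mem_union_right _ hx)
    exact (mk_link hy hK (mem_XX.1 hx).1 hy' hp.2.1 hr
      (unclean_cluster hC hM hy hx y' hy' hne)).symm

theorem SS_link {b : ℕ} (hC : CWb G Finset.univ W b) (hM : IsMax G F.length F) {y : V}
    (hy : y ∈ unc F) {n : ℕ} (hK : CWg G (comp G F y) (Sp G W F (comp G F y)) n) {v : V}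
    (hv : Good G (comp G F y) (Sp G W F (comp G F y)) v) {s t : V} (hs : s ∈ SS G W F y v)
    (ht : t ∈ SS G W F y v) (hst : s ≠ t) : Link G F y (n + 3) s t := by
  rcases mem_SS.1 hs with h | ⟨x, hx, rfl⟩
  · obtain ⟨q, hq, htq⟩ := att_nb hy (SS_att ht)
    exact rich_link' hy hK (good_rich hv (mem_att.1 h.1).1 h.2.symm) hq htq
  · rcases mem_SS.1 ht with h' | ⟨x', hx', rfl⟩
    · obtain ⟨q, hq, hsq⟩ := att_nb hy (SS_att hs)
      exact (rich_link' hy hK (good_rich hv (mem_att.1 h'.1).1 h'.2.symm) hq hsq).symm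
    · have hp := pend_spec hx
      have hp' := pend_spec hx'
      have hne : x' ≠ x := by
        rintro rfl
        exact hst rfl
      exact mk_link hy hK (mem_XX.1 hx).1 (mem_XX.1 hx').1 hp.2.1 hp'.2.1
        (unclean_cluster hC hM hy hx x' (mem_XX.1 hx').1 hne)

/-- 2-connectedness: a second hub -/
theorem two_hubs (h2 : Conn2 G Finset.univ) (hM : IsMax G F.length F) (hF1 : F.length = 1) {y : V}
    (hy : y ∈ unc F) {s : V} (hs : s ∈ F.flatten) : ∃ t ∈ att G F y, t ≠ s := by
  by_contra hcon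
  push Not at hcon
  have hlen : 3 ≤ F.flatten.length := by
    rcases F with _ | ⟨c, F⟩
    · simp at hF1
    · have := (hM.fam.cyc c (by simp)).2.1
      simp only [List.flatten_cons, List.length_append]
      omega
  have hne := iter_ne_one hM.fam hF1 hs 1 le_rfl (by omega)
  have hpF := prv_mem hM.fam hs
  have hyF := mem_unc.1 hy
  have hr := h2 s (Finset.mem_univ _) y (Finset.mem_erase.2 ⟨fun h => hyF (h ▸ hs),
    Finset.mem_univ _⟩) (prv F s) (Finset.mem_erase.2 ⟨hne, Finset.mem_univ _⟩)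
  have := closed_reach (T := comp G F y) ?_ hr (self_comp hy)
  · exact mem_unc.1 (mem_comp.1 this).1 hpF
  · intro w hw z hz hwz
    by_cases hzF : z ∈ F.flatten
    · exfalso
      exact (Finset.mem_erase.1 hz).1 (hcon z (mem_att.2 ⟨hzF, w, (mem_comp.1 hw).2, hwz.symm⟩))
    · exact comp_cl hw (mem_unc.2 hzF) hwz

/-- 2-connectedness: a hub adjacent to another vertex of the component -/
theorem two_nb (h2 : Conn2 G Finset.univ) {y : V} (hy : y ∈ unc F) {x v s : V}
    (hx : x ∈ comp G F y) (hv : v ∈ comp G F y) (hvx : v ≠ x) (hs : s ∈ F.flatten) :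
    ∃ u ∈ F.flatten, ∃ x' ∈ comp G F y, x' ≠ x ∧ G.Adj u x' := by
  by_contra hcon
  push Not at hcon
  have hsx : s ≠ x := fun h => mem_unc.1 (mem_comp.1 hx).1 (h ▸ hs)
  have hr := h2 x (Finset.mem_univ _) v (Finset.mem_erase.2 ⟨hvx, Finset.mem_univ _⟩) s
    (Finset.mem_erase.2 ⟨hsx, Finset.mem_univ _⟩)
  have := closed_reach (T := (comp G F y).erase x) ?_ hr (Finset.mem_erase.2 ⟨hvx, hv⟩)
  · exact mem_unc.1 (mem_comp.1 (Finset.mem_of_mem_erase this)).1 hs
  · intro w hw z hz hwz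
    rw [Finset.mem_erase] at hw
    by_cases hzF : z ∈ F.flatten
    · exact absurd hwz.symm (hcon z hzF w hw.2 hw.1)
    · exact Finset.mem_erase.2 ⟨(Finset.mem_erase.1 hz).1, comp_cl hw.2 (mem_unc.2 hzF) hwz⟩

theorem noRet_SS {b : ℕ} (hC : CWb G Finset.univ W b) (h2 : Conn2 G Finset.univ)
    (hM : IsMax G F.length F) (hF1 : F.length = 1) {y : V}
    (hy : y ∈ unc F) {n : ℕ} (hK : CWg G (comp G F y) (Sp G W F (comp G F y)) n) {v : V}
    (hv : Good G (comp G F y) (Sp G W F (comp G F y)) v) {s : V} (hs : s ∈ SS G W F y v) :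
    NoRet F (n + 3) := by
  have hsF := (mem_att.1 (SS_att hs)).1
  rcases mem_SS.1 hs with h | ⟨x, hx, rfl⟩
  · obtain ⟨t, ht, hts⟩ := two_hubs h2 hM hF1 hy hsF
    obtain ⟨q, hq, htq⟩ := att_nb hy ht
    exact noRet_of_link hM hF1 hsF (mem_att.1 ht).1 hts.symm
      (rich_link' hy hK (good_rich hv hsF h.2.symm) hq htq)
  · have hp := pend_spec hx
    have hvx : v ≠ x := by
      rintro rfl
      exact hv.nS (Finset.mem_union_right _ hx)
    obtain ⟨u, hu, x', hx', hne, hux'⟩ := two_nb h2 hy (mem_XX.1 hx).1 hv.mem hvx hsF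
    refine noRet_of_link hM hF1 hsF hu ?_ (mk_link hy hK (mem_XX.1 hx).1 hx' hp.2.1 hux'
      (unclean_cluster hC hM hy hx x' hx' hne))
    intro h
    exact hne (hp.2.2 x' hx' (h ▸ hux'))

end

end Pool.Agent.H6T.Lab
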