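import Pool.Agent.H6T.TwoP

/-! One vertex `p` of a longest cycle, `g` vertices before a hub: non-neighbours of `p` in front
of the other hubs of the same component. -/

namespace Pool.Agent.H6T

open List Pool.Agent.TF82 Pool.Agent.TFC

universe u

set_option linter.unusedSectionVars false
set_option linter.unusedVariables false

variable {V : Type u} [DecidableEq V]

theorem segTD {G : SimpleGraph V} {R : List V} {a b : V} (h : Seg G R a b) {g i : ℕ}
    (hgi : g ≤ i) (hi : i < R.length) : Seg G ((R.take (i + 1)).drop g) R[g] R[i] := by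
  have h1 := segT h hi
  have hl : g < (R.take (i + 1)).length := by
    rw [List.length_take]
    omega
  have h2 := segD h1 hl
  rwa [List.getElem_take] at h2

/-- a nodup closed chain that is not longer than the longest cycle -/
theorem len_le {G : SimpleGraph V} {c R : List V}
    (hmax : ∀ c', CycL G c' → c'.length ≤ c.length) {a b : V} (hR : Seg G R a b)
    (hba : G.Adj b a) (hn : R.Nodup) (h3 : 3 ≤ R.length) : R.length ≤ c.length := by
  refine hmax R ⟨hn, h3, hR.ch, ?_⟩
  intro x hx z hz
  rw [hR.lt] at hx
  rw [hR.hd] at hz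
  simp only [Option.mem_def, Option.some.injEq] at hx hz
  rw [← hx, ← hz]
  exact hba

theorem drop_sub {R : List V} {i j : ℕ} (hij : i ≤ j) : (R.take i ++ R.drop j).Sublist R := by
  have h1 : R.take i ++ R.drop i = R := List.take_append_drop _ _
  have h2 : (R.drop j).Sublist (R.drop i) := by
    have : R.drop j = (R.drop i).drop (j - i) := by
      rw [List.drop_drop]
      congr 1
      omega
    rw [this]
    exact List.drop_sublist _ _
  have h3 := List.Sublist.append_left h2 (R.take i)
  rwa [h1] at h3

/-- two linked hubs are far apart -/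
theorem hubs_far {G : SimpleGraph V} {R : List V} {p : V} {L : ℕ} (hL : 1 ≤ L)
    (hc : CycL G (p :: R)) (hmax : ∀ c', CycL G c' → c'.length ≤ (p :: R).length) {h h' : ℕ}
    (hhh : h < h') (hh' : h' < R.length) (hlk : Lk G (p :: R) L (R[h]'(by omega)) R[h']) :
    h + L < h' := by
  obtain ⟨Q, x1, x2, hQ, hQn, hQd, hQL, hs, ht⟩ := hlk
  have hR0 : Seg G R (R[0]'(by omega)) (R[R.length - 1]'(by omega)) := by
    refine ⟨(List.isChain_cons.1 hc.2.2.1).2, ?_, ?_⟩
    · rw [List.head?_eq_getElem?, List.getElem?_eq_getElem (by omega)]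
    · rw [List.getLast?_eq_getElem?, List.getElem?_eq_getElem (by omega)]
  have e1 : G.Adj p (R[0]'(by omega)) :=
    (List.isChain_cons.1 hc.2.2.1).1 _ (by rw [hR0.hd]; rfl)
  have e2 : G.Adj (R[R.length - 1]'(by omega)) p := by
    refine hc.2.2.2 _ ?_ p (by simp)
    rw [List.getLast?_cons, hR0.lt]
    rfl
  have hP : Seg G [p] p p := ⟨List.isChain_singleton _, rfl, rfl⟩
  have hseg := ((hP.append (segT hR0 (i := h) (by omega)) e1).append hQ hs).append
    (segD hR0 hh') ht.symm
  have hQp := hQ.pos
  have := len_le hmax hseg e2 ?_ ?_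
  · simp only [List.length_append, List.length_take, List.length_drop, List.length_cons,
      List.length_nil] at this
    omega
  · have hperm : ([p] ++ R.take (h + 1) ++ Q ++ R.drop h').Perm
        ((p :: (R.take (h + 1) ++ R.drop h')) ++ Q) := by
      have q1 : [p] ++ R.take (h + 1) ++ Q ++ R.drop h' =
          ([p] ++ R.take (h + 1)) ++ (Q ++ R.drop h') := List.append_assoc _ _ _
      have q2 : (p :: (R.take (h + 1) ++ R.drop h')) ++ Q =
          ([p] ++ R.take (h + 1)) ++ (R.drop h' ++ Q) := by simp
      rw [q1, q2]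
      exact List.Perm.append_left _ List.perm_append_comm
    rw [hperm.nodup_iff, List.nodup_append]
    have hsub : (p :: (R.take (h + 1) ++ R.drop h')).Sublist (p :: R) :=
      (drop_sub (by omega)).cons_cons p
    refine ⟨hsub.nodup hc.1, hQn, ?_⟩
    rintro x hx z hz rfl
    exact hQd x hz (hsub.subset hx)
  · simp only [List.length_append, List.length_take, List.length_drop, List.length_cons,
      List.length_nil]
    omega

/-- the block in front of a hub -/
theorem block_before {G : SimpleGraph V} {R : List V} {p : V} {L : ℕ} (hL : 1 ≤ L)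
    (hc : CycL G (p :: R)) (hmax : ∀ c', CycL G c' → c'.length ≤ (p :: R).length) {g i h : ℕ}
    (hgi : g ≤ i) (hih : i < h) (hh : h < R.length)
    (hlk : Lk G (p :: R) L (R[g]'(by omega)) R[h]) (hpi : G.Adj p (R[i]'(by omega))) :
    i + L < h + g := by
  obtain ⟨Q, x1, x2, hQ, hQn, hQd, hQL, hs, ht⟩ := hlk
  have hR0 : Seg G R (R[0]'(by omega)) (R[R.length - 1]'(by omega)) := by
    refine ⟨(List.isChain_cons.1 hc.2.2.1).2, ?_, ?_⟩
    · rw [List.head?_eq_getElem?, List.getElem?_eq_getElem (by omega)]
    · rw [List.getLast?_eq_getElem?, List.getElem?_eq_getElem (by omega)]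
  have e2 : G.Adj (R[R.length - 1]'(by omega)) p := by
    refine hc.2.2.2 _ ?_ p (by simp)
    rw [List.getLast?_cons, hR0.lt]
    rfl
  have hP : Seg G [p] p p := ⟨List.isChain_singleton _, rfl, rfl⟩
  have hseg := (((segTD hR0 hgi (by omega)).append hP hpi.symm).append (segD hR0 hh).rev
    e2.symm).append hQ.rev ht
  have hQp := hQ.pos
  have := len_le hmax hseg hs.symm ?_ ?_
  · simp only [List.length_append, List.length_take, List.length_drop, List.length_cons,
      List.length_nil, List.length_reverse] at this
    omega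
  · have hperm : ((R.take (i + 1)).drop g ++ [p] ++ (R.drop h).reverse ++ Q.reverse).Perm
        ((p :: ((R.take (i + 1)).drop g ++ R.drop h)) ++ Q) := by
      have q1 : ((R.take (i + 1)).drop g ++ [p] ++ (R.drop h).reverse ++ Q.reverse).Perm
          ((R.take (i + 1)).drop g ++ [p] ++ R.drop h ++ Q) :=
        List.Perm.append (List.Perm.append_left _ (List.reverse_perm _)) (List.reverse_perm _)
      refine q1.trans ?_
      apply List.Perm.append_right
      rw [List.append_assoc]
      simp only [List.singleton_append]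
      exact List.perm_middle
    rw [hperm.nodup_iff, List.nodup_append]
    have hsub : (p :: ((R.take (i + 1)).drop g ++ R.drop h)).Sublist (p :: R) := by
      apply List.Sublist.cons_cons
      exact (List.Sublist.append_right (List.drop_sublist _ _) _).trans (drop_sub (by omega))
    refine ⟨hsub.nodup hc.1, hQn, ?_⟩
    rintro x hx z hz rfl
    exact hQd x hz (hsub.subset hx)
  · simp only [List.length_append, List.length_take, List.length_drop, List.length_cons,
      List.length_nil, List.length_reverse]
    omega

theorem cnt_nat1 {m D g : ℕ} {N H : Finset ℕ} (h1 : ∀ i ∈ N, i < m) (hH : ∀ i ∈ H, i < m)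
    (hg : ∀ h ∈ H, g + D ≤ h) (hb : ∀ h ∈ H, ∀ i ∈ N, g ≤ i → i < h → i + D < h)
    (hd : ∀ h ∈ H, ∀ h' ∈ H, h < h' → h + D ≤ h') : N.card + H.card * D ≤ m := by
  set Bl : Finset ℕ := (H ×ˢ Finset.range D).image (fun q => q.1 - 1 - q.2) with hBl
  have hBlc : Bl.card = H.card * D := by
    rw [hBl, Finset.card_image_of_injOn, Finset.card_product, Finset.card_range]
    rintro ⟨a, x⟩ ha ⟨b, z⟩ hb' hab
    rw [Finset.mem_coe, Finset.mem_product, Finset.mem_range] at ha hb'
    simp only at ha hb' hab
    have ga := hg a ha.1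
    have gb := hg b hb'.1
    have hab' : a = b := by
      rcases lt_trichotomy a b with h | h | h
      · have := hd a ha.1 b hb'.1 h
        omega
      · exact h
      · have := hd b hb'.1 a ha.1 h
        omega
    subst hab'
    have : x = z := by omega
    rw [this]
  have hdis : Disjoint N Bl := by
    rw [Finset.disjoint_left]
    intro i hi hi2
    rw [hBl, Finset.mem_image] at hi2
    obtain ⟨⟨h, j⟩, hhj, rfl⟩ := hi2
    rw [Finset.mem_product, Finset.mem_range] at hhj
    simp only at hhj hi
    have ga := hg h hhj.1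
    have := hb h hhj.1 _ hi (by omega) (by omega)
    omega
  have hsub : N ∪ Bl ⊆ Finset.range m := by
    intro i hi
    rw [Finset.mem_range]
    rcases Finset.mem_union.1 hi with hi | hi
    · exact h1 i hi
    · rw [hBl, Finset.mem_image] at hi
      obtain ⟨⟨h, j⟩, hhj, rfl⟩ := hi
      rw [Finset.mem_product, Finset.mem_range] at hhj
      have := hH h hhj.1
      have ga := hg h hhj.1
      simp only at *
      omega
  have := Finset.card_le_card hsub
  rwa [Finset.card_union_of_disjoint hdis, hBlc, Finset.card_range] at this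

/-- **one vertex**: `w = R[g]` is a hub, `S` a set of pairwise `L`-linked hubs containing it -/
theorem one_p {G : SimpleGraph V} [DecidableRel G.Adj] {R : List V} {p : V} {S : Finset V}
    {L g : ℕ} (hc : CycL G (p :: R))
    (hmax : ∀ c', CycL G c' → c'.length ≤ (p :: R).length) (hg : g < R.length)
    (hw : R[g] ∈ S) (hSR : ∀ s ∈ S, s ∈ R)
    (hlk : ∀ s ∈ S, ∀ t ∈ S, s ≠ t → Lk G (p :: R) L s t) :
    cnt G p (p :: R) + (S.card - 1) * (L - g) + 1 ≤ (p :: R).length := by
  have hnR : R.Nodup := (List.nodup_cons.1 hc.1).2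
  have hcp : cnt G p (p :: R) = cnt G p R := by
    unfold cnt
    rw [List.filter_cons]
    simp
  rw [hcp, List.length_cons, cnt_pos]
  set N := (Finset.range R.length).filter (fun i => ∃ h : i < R.length, G.Adj p R[i]) with hN
  have hNle : N.card ≤ R.length := by
    have := Finset.card_filter_le (Finset.range R.length)
      (fun i => ∃ h : i < R.length, G.Adj p R[i])
    rwa [Finset.card_range] at this
  by_cases hgL : L ≤ g
  · rw [Nat.sub_eq_zero_of_le hgL, Nat.mul_zero]
    omega
  push Not at hgL
  set H := (Finset.range R.length).filter (fun i => ∃ h : i < R.length, R[i] ∈ S) with hH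
  have hHc : H.card = S.card := (hub_pos hnR hSR).symm
  have hgH : g ∈ H := by
    rw [hH, Finset.mem_filter, Finset.mem_range]
    exact ⟨hg, hg, hw⟩
  have hfar : ∀ h ∈ H, ∀ h' ∈ H, h < h' → h + L < h' := by
    intro h hh h' hh' hlt
    rw [hH, Finset.mem_filter] at hh hh'
    obtain ⟨-, hh1, hh2⟩ := hh
    obtain ⟨-, hh1', hh2'⟩ := hh'
    have hne : R[h] ≠ R[h'] := by
      intro he
      have := (List.Nodup.getElem_inj_iff hnR).1 he
      omega
    exact hubs_far (by omega) hc hmax hlt hh1' (hlk _ hh2 _ hh2' hne)
  have hcount := cnt_nat1 (m := R.length) (D := L - g) (g := g) (N := N) (H := H.erase g)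
    (fun i hi => by rw [hN, Finset.mem_filter] at hi; exact hi.2.1)
    (fun i hi => by
      have := Finset.mem_of_mem_erase hi
      rw [hH, Finset.mem_filter] at this
      exact this.2.1) ?_ ?_ ?_
  · rw [Finset.card_erase_of_mem hgH, hHc] at hcount
    omega
  · intro h hh
    have h1 := Finset.mem_of_mem_erase hh
    have h2 := Finset.ne_of_mem_erase hh
    rcases Nat.lt_or_gt_of_ne h2 with hlt | hlt
    · have := hfar h h1 g hgH hlt
      omega
    · have := hfar g hgH h h1 hlt
      omega
  · intro h hh i hi hgi hih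
    have h1 := Finset.mem_of_mem_erase hh
    rw [hH, Finset.mem_filter] at h1
    rw [hN, Finset.mem_filter] at hi
    obtain ⟨-, hh1, hh2⟩ := h1
    obtain ⟨-, hi1, hi2⟩ := hi
    have hne : R[g] ≠ R[h] := by
      intro he
      have := (List.Nodup.getElem_inj_iff hnR).1 he
      omega
    have := block_before (by omega) hc hmax hgi hih hh1 (hlk _ hw _ hh2 hne) hi2
    omega
  · intro h hh h' hh' hlt
    have := hfar h (Finset.mem_of_mem_erase hh) h' (Finset.mem_of_mem_erase hh') hlt
    omega

end Pool.Agent.H6T
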