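import Pool.Agent.H93L.Glue
import Pool.Agent.H6T.Lab4
import Pool.Agent.H18C.CutFin
import Pool.Agent.H62P.TransP

/-! Q1 for all `k` and all graphs. -/

set_option autoImplicit false

namespace Pool.Agent.H6T

open List Pool.Agent.TF82 Pool.Agent.TFC Pool.Agent.TFB Pool.Agent.EG31 Pool.Agent.H18C
  Pool.Agent.H62P

universe u

theorem labAll : H93L.LabAll.{u} := by
  intro V _ _ G _ W b c hC h2 hM J h1 h3 h4 h5
  exact Lab.lab hC h2 (F := [c]) hM rfl h1 h3 h4 h5

theorem q1 {V : Type u} [Fintype V] [DecidableEq V] (G : SimpleGraph V) [DecidableRel G.Adj]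
    (k : ℕ)
    (hC : ∀ I : Finset V, G.IsIndepSet (I : Set V) → ∀ v ∈ I,
      I.card + 1 ≤ dU G Finset.univ v)
    (hσ : ∀ I : Finset V, G.IsIndepSet (I : Set V) → I.card = k + 1 →
      Fintype.card V ≤ ∑ v ∈ I, dU G Finset.univ v) : Cov G k :=
  q1_of_pkg H18C.cutStepP H18C.sideStepP (H93L.mainStepP_of_lab labAll) transferP G k hC hσ

end Pool.Agent.H6T
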